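import Pool.Agent.Run7.h80.HK.Main

/-! Passage to the limit in the main inequality. -/

set_option autoImplicit false

open Set Filter Topology Metric MeasureTheory
open scoped ComplexConjugate ENNReal ContDiff

namespace Run7.h80.HK

open UnitAddTorus

variable {n : ℕ}

section

variable {Ω : TopologicalSpace.Opens (Fin n → ℂ)} {f : (Fin n → ℂ) → ℂ}

/-- the square of the norm of `z ^ γ` in `L²(Ω)` -/
noncomputable def JJ (Ω : TopologicalSpace.Opens (Fin n → ℂ)) (γ : Fin n → ℤ) : ℝ :=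
  ∫ z in (Ω : Set (Fin n → ℂ)), ‖zmono γ z‖ ^ 2

lemma InS.integrable {γ : Fin n → ℤ} (h : InS Ω γ) :
    Integrable (fun z => ‖zmono γ z‖ ^ 2) (volume.restrict (Ω : Set (Fin n → ℂ))) :=
  (memLp_two_iff_integrable_sq_norm h.mem.1).1 h.mem

lemma restrict_inter_Nz (Ω : Set (Fin n → ℂ)) :
    (volume.restrict (Ω ∩ {z | Nz z}) : Measure (Fin n → ℂ)) = volume.restrict Ω := by
  apply Measure.restrict_congr_set
  have h : ∀ᵐ z ∂(volume : Measure (Fin n → ℂ)), Nz z := by
    have := ae_Nz (univ : Set (Fin n → ℂ))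
    rwa [Measure.restrict_univ] at this
  filter_upwards [h] with z hz
  apply propext
  exact ⟨fun h => h.1, fun h => ⟨h, hz⟩⟩

lemma tendsto_II (hR : IsReinhardt (Ω : Set (Fin n → ℂ))) (hf : ContinuousOn f Ω)
    {γ : Fin n → ℤ} (h : InS Ω γ) :
    Tendsto (fun m => II Ω f m γ) atTop (𝓝 (JJ Ω γ)) := by
  have h1 := tendsto_setIntegral_of_monotone (μ := volume) (f := fun z => ‖zmono γ z‖ ^ 2)
    (s := fun m => Kset (Ω : Set (Fin n → ℂ)) f m)
    (fun m => measurableSet_Kset Ω.isOpen hR hf m) (fun m m' hm => Kset_mono hm) (by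
      rw [iUnion_Kset hR hf, IntegrableOn, restrict_inter_Nz]
      exact h.integrable)
  rw [iUnion_Kset hR hf, restrict_inter_Nz] at h1
  exact h1

lemma II_nonneg (m : ℕ) (γ : Fin n → ℤ) : 0 ≤ II Ω f m γ :=
  integral_nonneg fun z => by positivity

lemma II_mono (hb : Bornology.IsBounded (Ω : Set (Fin n → ℂ)))
    (hR : IsReinhardt (Ω : Set (Fin n → ℂ))) (hf : ContinuousOn f Ω) (γ : Fin n → ℤ) :
    Monotone fun m => II Ω f m γ := by
  intro m m' hm
  exact setIntegral_mono_set (integrableOn_K hb hR hf m' γ)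
    (Eventually.of_forall fun z => by positivity) (Kset_mono hm).eventuallyLE

lemma II_le_JJ (hR : IsReinhardt (Ω : Set (Fin n → ℂ))) (hf : ContinuousOn f Ω)
    {γ : Fin n → ℤ} (h : InS Ω γ) (m : ℕ) : II Ω f m γ ≤ JJ Ω γ := by
  exact setIntegral_mono_set h.integrable (Eventually.of_forall fun z => by positivity)
    (show Kset (Ω : Set (Fin n → ℂ)) f m ⊆ Ω from fun z hz => hz.1).eventuallyLE

/-- bounded truncated integrals: the monomial is square integrable -/
lemma memLp_of_II_le (hb : Bornology.IsBounded (Ω : Set (Fin n → ℂ)))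
    (hR : IsReinhardt (Ω : Set (Fin n → ℂ))) (hf : ContinuousOn f Ω) {γ : Fin n → ℤ} {C : ℝ}
    (h : ∀ m, II Ω f m γ ≤ C) :
    MemLp (zmono γ) 2 (volume.restrict (Ω : Set (Fin n → ℂ))) := by
  rw [memLp_two_iff_integrable_sq_norm (measurable_zmono γ).aestronglyMeasurable]
  refine ⟨((measurable_zmono γ).norm.pow_const 2).aestronglyMeasurable, ?_⟩
  rw [hasFiniteIntegral_iff_ofReal (Eventually.of_forall fun z => by positivity)]
  rw [← restrict_inter_Nz, ← iUnion_Kset hR hf, setLIntegral_iUnion_of_directed]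
  · refine lt_of_le_of_lt (iSup_le fun m => ?_) (ENNReal.ofReal_lt_top (r := C))
    rw [← ofReal_integral_eq_lintegral_ofReal (integrableOn_K hb hR hf m γ)
      (Eventually.of_forall fun z => by positivity)]
    exact ENNReal.ofReal_le_ofReal (h m)
  · exact Monotone.directed_le (fun m m' hm => Kset_mono hm)

/-- the sets `K_m` have positive measure for large `m` -/
lemma exists_pos (hR : IsReinhardt (Ω : Set (Fin n → ℂ))) (hf : ContinuousOn f Ω)
    (hne : (Ω : Set (Fin n → ℂ)).Nonempty) :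
    ∃ m₀, 0 < volume (Kset (Ω : Set (Fin n → ℂ)) f m₀) := by
  by_contra hcon
  push Not at hcon
  have h1 : ∀ m, volume (Kset (Ω : Set (Fin n → ℂ)) f m) = 0 := fun m => nonpos_iff_eq_zero.1 (hcon m)
  have h2 : volume (⋃ m, Kset (Ω : Set (Fin n → ℂ)) f m) = 0 := measure_iUnion_null h1
  rw [iUnion_Kset hR hf] at h2
  have h3 := congrArg (fun ν : Measure (Fin n → ℂ) => ν univ)
    (restrict_inter_Nz (Ω : Set (Fin n → ℂ)))
  simp only [Measure.restrict_apply_univ] at h3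
  rw [h2] at h3
  exact (Ω.isOpen.measure_pos volume hne).ne h3

lemma II_pos (hb : Bornology.IsBounded (Ω : Set (Fin n → ℂ)))
    (hR : IsReinhardt (Ω : Set (Fin n → ℂ))) (hf : ContinuousOn f Ω) {m : ℕ}
    (hm : 0 < volume (Kset (Ω : Set (Fin n → ℂ)) f m)) (γ : Fin n → ℤ) : 0 < II Ω f m γ := by
  unfold II
  rw [setIntegral_pos_iff_support_of_nonneg_ae (Eventually.of_forall fun z => by positivity)
    (integrableOn_K hb hR hf m γ)]
  have : Function.support (fun z : Fin n → ℂ => ‖zmono γ z‖ ^ 2) ∩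
      Kset (Ω : Set (Fin n → ℂ)) f m = Kset (Ω : Set (Fin n → ℂ)) f m := by
    apply inter_eq_right.2
    intro z hz
    rw [Function.mem_support]
    exact pow_ne_zero _ (norm_ne_zero_iff.2 (zmono_ne_zero (Kset_nz hz) γ))
  rw [this]
  exact hm

lemma JJ_pos (hb : Bornology.IsBounded (Ω : Set (Fin n → ℂ)))
    (hR : IsReinhardt (Ω : Set (Fin n → ℂ))) (hne : (Ω : Set (Fin n → ℂ)).Nonempty)
    {γ : Fin n → ℤ} (h : InS Ω γ) : 0 < JJ Ω γ := by
  obtain ⟨m₀, hm₀⟩ := exists_pos (f := fun _ => 0) hR continuousOn_const hne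
  exact (II_pos hb hR continuousOn_const hm₀ γ).trans_le (II_le_JJ hR continuousOn_const h m₀)

/-- the standing hypotheses -/
structure Setup (Ω : TopologicalSpace.Opens (Fin n → ℂ)) (f : (Fin n → ℂ) → ℂ)
    (T : A2 Ω →L[ℂ] Lp ℂ 2 (volume.restrict (Ω : Set (Fin n → ℂ)))) : Prop where
  conn : IsPreconnected (Ω : Set (Fin n → ℂ))
  ne : (Ω : Set (Fin n → ℂ)).Nonempty
  bdd : Bornology.IsBounded (Ω : Set (Fin n → ℂ))
  rein : IsReinhardt (Ω : Set (Fin n → ℂ))
  hol : DifferentiableOn ℂ f Ω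
  dense : Dense {g : A2 Ω | MemLp (fun z => conj (f z) * g.1 z) 2
      (volume.restrict (Ω : Set (Fin n → ℂ)))}
  eq : ∀ g hg, T g = hankel Ω f g hg

variable {T : A2 Ω →L[ℂ] Lp ℂ 2 (volume.restrict (Ω : Set (Fin n → ℂ)))}

lemma Setup.cont (H : Setup Ω f T) : ContinuousOn f Ω := H.hol.continuousOn

/-- the inequality with the best `λ` -/
lemma Setup.ineq1 (H : Setup Ω f T) {α β : Fin n → ℤ} {a : ℂ}
    (ha : ∀ z ∈ Ω, Nz z → mode f β z = a * zmono β z) (hα : InS Ω α) {m : ℕ}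
    (hm : 0 < volume (Kset (Ω : Set (Fin n → ℂ)) f m)) :
    ‖a‖ ^ 2 * (II Ω f m (α + β) - II Ω f m α ^ 2 / II Ω f m (α - β)) ≤ ‖T (mel hα)‖ ^ 2 := by
  have hpos := II_pos H.bdd H.rein H.cont hm (α - β)
  have := main_ineq H.conn H.bdd H.rein H.hol T H.dense H.eq ha hα m
    (II Ω f m α / II Ω f m (α - β)) (Or.inr (by field_simp))
  have e : II Ω f m α / II Ω f m (α - β) * II Ω f m α = II Ω f m α ^ 2 / II Ω f m (α - β) := by
    ring
  rwa [e] at this

/-- `α ∈ S` implies `α + β ∈ S` -/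
lemma Setup.step (H : Setup Ω f T) {α β : Fin n → ℤ} {a : ℂ} (ha0 : a ≠ 0)
    (ha : ∀ z ∈ Ω, Nz z → mode f β z = a * zmono β z) (hα : InS Ω α) : InS Ω (α + β) := by
  constructor
  · obtain ⟨h, hh, hh2⟩ := hα.hol
    refine ⟨fun z => h z * (a⁻¹ * mode f β z), hh.mul ((differentiableOn_mode Ω.isOpen H.rein H.hol
      β).const_mul _), fun z hz hnz => ?_⟩
    simp only
    rw [hh2 z hz hnz, ha z hz hnz, zmono_add hnz, inv_mul_cancel_left₀ ha0]
  · obtain ⟨m₀, hm₀⟩ := exists_pos (f := f) H.rein H.cont H.ne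
    have hpos := II_pos H.bdd H.rein H.cont hm₀ (α - β)
    have ha2 : 0 < ‖a‖ ^ 2 := by positivity
    set C := ‖T (mel hα)‖ ^ 2 / ‖a‖ ^ 2 + JJ Ω α ^ 2 / II Ω f m₀ (α - β) with hC
    apply memLp_of_II_le (f := f) H.bdd H.rein H.cont (C := C)
    have hlarge : ∀ m, m₀ ≤ m → II Ω f m (α + β) ≤ C := by
      intro m hm
      have hvol : 0 < volume (Kset (Ω : Set (Fin n → ℂ)) f m) :=
        hm₀.trans_le (measure_mono (Kset_mono hm))
      have h1 := H.ineq1 ha hα hvol
      have h2 : II Ω f m α ^ 2 / II Ω f m (α - β) ≤ JJ Ω α ^ 2 / II Ω f m₀ (α - β) := by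
        have h3 := II_le_JJ (f := f) H.rein H.cont hα m
        have h4 := II_mono H.bdd H.rein H.cont (α - β) hm
        have h5 := II_nonneg (Ω := Ω) (f := f) m α
        simp only at h4
        gcongr
      have h6 : II Ω f m (α + β) - II Ω f m α ^ 2 / II Ω f m (α - β) ≤
          ‖T (mel hα)‖ ^ 2 / ‖a‖ ^ 2 := by
        rw [le_div_iff₀ ha2]
        linarith
      linarith
    intro m
    exact (II_mono H.bdd H.rein H.cont (α + β) (le_max_left m m₀)).trans
      (hlarge _ (le_max_right m m₀))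

/-- limit inequality, first case -/
lemma Setup.lim1 (H : Setup Ω f T) {α β : Fin n → ℤ} {a : ℂ} (ha0 : a ≠ 0)
    (ha : ∀ z ∈ Ω, Nz z → mode f β z = a * zmono β z) (hα : InS Ω α) (hα' : InS Ω (α - β)) :
    ‖a‖ ^ 2 * (JJ Ω (α + β) - JJ Ω α ^ 2 / JJ Ω (α - β)) ≤ ‖T (mel hα)‖ ^ 2 := by
  obtain ⟨m₀, hm₀⟩ := exists_pos (f := f) H.rein H.cont H.ne
  have hJ := JJ_pos H.bdd H.rein H.ne hα'
  have hs := H.step ha0 ha hα
  have hlim : Tendsto (fun m => ‖a‖ ^ 2 * (II Ω f m (α + β) -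
      II Ω f m α ^ 2 / II Ω f m (α - β))) atTop
      (𝓝 (‖a‖ ^ 2 * (JJ Ω (α + β) - JJ Ω α ^ 2 / JJ Ω (α - β)))) :=
    ((tendsto_II H.rein H.cont hs).sub (((tendsto_II H.rein H.cont hα).pow 2).div
      (tendsto_II H.rein H.cont hα') hJ.ne')).const_mul _
  apply le_of_tendsto hlim
  filter_upwards [eventually_ge_atTop m₀] with m hm
  exact H.ineq1 ha hα (hm₀.trans_le (measure_mono (Kset_mono hm)))

/-- limit inequality, second case -/
lemma Setup.lim2 (H : Setup Ω f T) {α β : Fin n → ℤ} {a : ℂ} (ha0 : a ≠ 0)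
    (ha : ∀ z ∈ Ω, Nz z → mode f β z = a * zmono β z) (hα : InS Ω α) (hα' : ¬ InS Ω (α - β)) :
    ‖a‖ ^ 2 * JJ Ω (α + β) ≤ ‖T (mel hα)‖ ^ 2 := by
  obtain ⟨m₀, hm₀⟩ := exists_pos (f := f) H.rein H.cont H.ne
  have hs := H.step ha0 ha hα
  by_cases hhol : ∃ h, DifferentiableOn ℂ h (Ω : Set (Fin n → ℂ)) ∧
      ∀ z ∈ Ω, Nz z → h z = zmono (α - β) z
  · -- not square integrable
    have hnot : ¬ MemLp (zmono (α - β)) 2 (volume.restrict (Ω : Set (Fin n → ℂ))) :=
      fun h => hα' ⟨hhol, h⟩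
    have hunb : Tendsto (fun m => II Ω f m (α - β)) atTop atTop := by
      rcases tendsto_of_monotone (II_mono (f := f) H.bdd H.rein H.cont (α - β)) with h | ⟨l, hl⟩
      · exact h
      · exfalso
        apply hnot
        exact memLp_of_II_le (f := f) H.bdd H.rein H.cont (C := l)
          fun m => (II_mono (f := f) H.bdd H.rein H.cont (α - β)).ge_of_tendsto hl m
    have hlim : Tendsto (fun m => ‖a‖ ^ 2 * (II Ω f m (α + β) -
        II Ω f m α ^ 2 / II Ω f m (α - β))) atTop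
        (𝓝 (‖a‖ ^ 2 * (JJ Ω (α + β) - 0))) :=
      ((tendsto_II H.rein H.cont hs).sub (((tendsto_II H.rein H.cont hα).pow 2).div_atTop
        hunb)).const_mul _
    rw [sub_zero] at hlim
    apply le_of_tendsto hlim
    filter_upwards [eventually_ge_atTop m₀] with m hm
    exact H.ineq1 ha hα (hm₀.trans_le (measure_mono (Kset_mono hm)))
  · -- no holomorphic function of this degree
    have hzero : ∀ h, DifferentiableOn ℂ h (Ω : Set (Fin n → ℂ)) → ∀ z ∈ Ω, Nz z →
        mode h (α - β) z = 0 := by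
      intro h hh z hz hnz
      obtain ⟨c, hc⟩ := mode_eq Ω.isOpen H.conn H.rein hh (α - β)
      by_cases hc0 : c = 0
      · rw [hc z hz hnz, hc0, zero_mul]
      · exfalso
        apply hhol
        refine ⟨fun z => c⁻¹ * mode h (α - β) z,
          (differentiableOn_mode Ω.isOpen H.rein hh _).const_mul _, fun z hz hnz => ?_⟩
        simp only
        rw [hc z hz hnz, inv_mul_cancel_left₀ hc0]
    have hlim : Tendsto (fun m => ‖a‖ ^ 2 * II Ω f m (α + β)) atTop
        (𝓝 (‖a‖ ^ 2 * JJ Ω (α + β))) := (tendsto_II H.rein H.cont hs).const_mul _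
    apply le_of_tendsto hlim
    filter_upwards with m
    have := main_ineq H.conn H.bdd H.rein H.hol T H.dense H.eq ha hα m 0 (Or.inl ⟨rfl, hzero⟩)
    simpa using this

end

end Run7.h80.HK
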