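import Pool.Agent.Run7.h80.HK.Mode

/-! The Bergman space is closed in `L²`. -/

set_option autoImplicit false

open Set Filter Topology Metric MeasureTheory
open scoped ComplexConjugate ENNReal ContDiff

namespace Run7.h80.HK

variable {n : ℕ}

lemma norm_sq_eq_integral {α : Type*} [MeasurableSpace α] {μ : Measure α} (u : Lp ℂ 2 μ) :
    ‖u‖ ^ 2 = ∫ z, ‖u z‖ ^ 2 ∂μ := by
  have h1 := (inner_self_eq_norm_sq_to_K (𝕜 := ℂ) u)
  rw [L2.inner_def] at h1
  have h2 : (fun z => inner ℂ (u z) (u z)) = fun z => (((‖u z‖ ^ 2 : ℝ)) : ℂ) := by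
    funext z
    rw [inner_self_eq_norm_sq_to_K]
    simp
  rw [h2, integral_complex_ofReal] at h1
  have h3 : ((∫ z, ‖u z‖ ^ 2 ∂μ : ℝ) : ℂ) = ((‖u‖ ^ 2 : ℝ) : ℂ) := by
    rw [h1]; simp
  exact_mod_cast h3.symm

lemma integrable_norm_sq {α : Type*} [MeasurableSpace α] {μ : Measure α} (u : Lp ℂ 2 μ) :
    Integrable (fun z => ‖u z‖ ^ 2) μ :=
  (memLp_two_iff_integrable_sq_norm (Lp.aestronglyMeasurable u)).1 (Lp.memLp u)

lemma lintegral_sq_eq {α : Type*} [MeasurableSpace α] {μ : Measure α} (u : Lp ℂ 2 μ) :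
    ∫⁻ z, ENNReal.ofReal (‖u z‖ ^ 2) ∂μ = ENNReal.ofReal (‖u‖ ^ 2) := by
  rw [norm_sq_eq_integral, ofReal_integral_eq_lintegral_ofReal (integrable_norm_sq u)]
  exact Eventually.of_forall fun z => by positivity

/-- pointwise bound of holomorphic functions by the norm in `L²` -/
lemma point_bound {Ω : Set (Fin n → ℂ)} (hΩ : IsOpen Ω) {u : Lp ℂ 2 (volume.restrict Ω)}
    {g : (Fin n → ℂ) → ℂ} (hg : DifferentiableOn ℂ g Ω) (hu : u =ᵐ[volume.restrict Ω] g)
    {w : Fin n → ℂ} {r : ℝ} (hr : 0 < r) (hw : closedBall w r ⊆ Ω) :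
    ‖g w‖ ≤ ‖u‖ / √(volume (closedBall (0 : Fin n → ℂ) r)).toReal := by
  have h1 := Pool.Agent.Helper853.Bk.bergman_ineq hg hw
  have h2 : ∫⁻ z in closedBall w r, ENNReal.ofReal (‖g z‖ ^ 2) ≤
      ∫⁻ z in Ω, ENNReal.ofReal (‖g z‖ ^ 2) := lintegral_mono_set hw
  have h3 : ∫⁻ z in Ω, ENNReal.ofReal (‖g z‖ ^ 2) = ENNReal.ofReal (‖u‖ ^ 2) := by
    rw [← lintegral_sq_eq u]
    apply lintegral_congr_ae
    filter_upwards [hu] with z hz
    rw [hz]
  rw [Measure.addHaar_closedBall_center] at h1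
  set V := volume (closedBall (0 : Fin n → ℂ) r) with hV
  have hVpos : 0 < V := measure_closedBall_pos _ _ hr
  have hVfin : V < ⊤ := measure_closedBall_lt_top
  have h4 : ENNReal.ofReal (‖g w‖ ^ 2) * V ≤ ENNReal.ofReal (‖u‖ ^ 2) := h1.trans (h2.trans h3.le)
  have hVr : 0 < V.toReal := ENNReal.toReal_pos hVpos.ne' hVfin.ne
  have h5 : ‖g w‖ ^ 2 * V.toReal ≤ ‖u‖ ^ 2 := by
    have := ENNReal.toReal_mono ENNReal.ofReal_ne_top h4
    rwa [ENNReal.toReal_mul, ENNReal.toReal_ofReal (by positivity),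
      ENNReal.toReal_ofReal (by positivity)] at this
  rw [le_div_iff₀ (Real.sqrt_pos.2 hVr)]
  apply le_of_sq_le_sq _ (norm_nonneg _)
  rw [mul_pow, Real.sq_sqrt hVr.le]
  exact h5

/-- The Bergman space `A²(Ω)`: the elements of `L²(Ω)` which are given by holomorphic functions. -/
def A2 (Ω : TopologicalSpace.Opens (Fin n → ℂ)) :
    Submodule ℂ (Lp ℂ 2 (volume.restrict (Ω : Set (Fin n → ℂ)))) where
  carrier := {u | ∃ g : (Fin n → ℂ) → ℂ, DifferentiableOn ℂ g Ω ∧
    u =ᵐ[volume.restrict (Ω : Set (Fin n → ℂ))] g}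
  zero_mem' := ⟨0, differentiableOn_const 0, Lp.coeFn_zero _ _ _⟩
  add_mem' := by
    rintro u v ⟨g, hg, hu⟩ ⟨h, hh, hv⟩
    refine ⟨g + h, hg.add hh, ?_⟩
    filter_upwards [Lp.coeFn_add u v, hu, hv] with z h1 h2 h3
    rw [h1, Pi.add_apply, Pi.add_apply, h2, h3]
  smul_mem' := by
    rintro c u ⟨g, hg, hu⟩
    refine ⟨c • g, hg.const_smul c, ?_⟩
    filter_upwards [Lp.coeFn_smul c u, hu] with z h1 h2
    rw [h1, Pi.smul_apply, Pi.smul_apply, h2]

theorem isClosed_A2 (Ω : TopologicalSpace.Opens (Fin n → ℂ)) :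
    IsClosed (A2 Ω : Set (Lp ℂ 2 (volume.restrict (Ω : Set (Fin n → ℂ))))) := by
  apply IsSeqClosed.isClosed
  intro x u hx hlim
  choose g hg hxg using hx
  have hΩ : IsOpen (Ω : Set (Fin n → ℂ)) := Ω.isOpen
  -- uniform estimate
  have hest : ∀ w : Fin n → ℂ, ∀ r : ℝ, 0 < r → closedBall w r ⊆ Ω → ∀ k l,
      ‖g k w - g l w‖ ≤ ‖x k - x l‖ / √(volume (closedBall (0 : Fin n → ℂ) r)).toReal := by
    intro w r hr hw k l
    have h1 : (↑(x k - x l) : (Fin n → ℂ) → ℂ) =ᵐ[volume.restrict (Ω : Set (Fin n → ℂ))]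
        (g k - g l) := by
      filter_upwards [Lp.coeFn_sub (x k) (x l), hxg k, hxg l] with z h1 h2 h3
      rw [h1, Pi.sub_apply, Pi.sub_apply, h2, h3]
    exact point_bound hΩ ((hg k).sub (hg l)) h1 hr hw
  have hcau : CauchySeq x := hlim.cauchySeq
  have hptw : ∀ w ∈ (Ω : Set (Fin n → ℂ)), ∃ a, Tendsto (fun k => g k w) atTop (𝓝 a) := by
    intro w hw
    obtain ⟨r, hr, hrΩ⟩ := Metric.isOpen_iff.1 hΩ w hw
    have hcb : closedBall w (r / 2) ⊆ Ω := (closedBall_subset_ball (by linarith)).trans hrΩ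
    set V := √(volume (closedBall (0 : Fin n → ℂ) (r / 2))).toReal with hV
    have hVpos : 0 < V := by
      apply Real.sqrt_pos.2
      exact ENNReal.toReal_pos (measure_closedBall_pos _ _ (by positivity)).ne'
        measure_closedBall_lt_top.ne
    apply cauchySeq_tendsto_of_complete
    rw [Metric.cauchySeq_iff] at hcau ⊢
    intro ε hε
    obtain ⟨N, hN⟩ := hcau (ε * V) (by positivity)
    refine ⟨N, fun k hk l hl => ?_⟩
    have h1 := hN k hk l hl
    rw [dist_eq_norm] at h1 ⊢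
    refine (hest w (r / 2) (by positivity) hcb k l).trans_lt ?_
    rw [div_lt_iff₀ hVpos]
    exact h1
  classical
  choose! G hG using hptw
  have hGd : DifferentiableOn ℂ G Ω := by
    intro z hz
    apply DifferentiableAt.differentiableWithinAt
    obtain ⟨r, hr, hrΩ⟩ := Metric.isOpen_iff.1 hΩ z hz
    set V := √(volume (closedBall (0 : Fin n → ℂ) (r / 4))).toReal with hV
    obtain ⟨C, hC⟩ := hcau.isBounded_range.exists_norm_le
    have hbd : ∀ k, ∀ w ∈ ball z (r / 4), ‖g k w‖ ≤ C / V := by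
      intro k w hw
      have hcb : closedBall w (r / 4) ⊆ Ω := by
        intro y hy
        apply hrΩ
        rw [mem_ball] at hw ⊢
        rw [mem_closedBall] at hy
        calc dist y z ≤ dist y w + dist w z := dist_triangle _ _ _
          _ < r := by linarith
      refine (point_bound hΩ (hg k) (hxg k) (by positivity) hcb).trans ?_
      gcongr
      exact hC _ ⟨k, rfl⟩
    apply Pool.Agent.Helper853.Bk.differentiableAt_of_tendsto (G := g) (r := r / 4)
      (M := C / V) (by positivity)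
    · refine Eventually.of_forall fun k => ⟨?_, hbd k⟩
      exact (hg k).mono ((ball_subset_ball (by linarith)).trans hrΩ)
    · intro w hw
      exact hG w (hrΩ (ball_subset_ball (by linarith) hw))
  refine ⟨G, hGd, ?_⟩
  have hm : TendstoInMeasure (volume.restrict (Ω : Set (Fin n → ℂ))) (fun k => (x k : _ → ℂ))
      atTop u := tendstoInMeasure_of_tendsto_Lp hlim
  obtain ⟨ns, hns, hae⟩ := hm.exists_seq_tendsto_ae
  have hall : ∀ᵐ z ∂(volume.restrict (Ω : Set (Fin n → ℂ))), ∀ k, x k z = g k z :=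
    ae_all_iff.2 hxg
  filter_upwards [hae, hall, ae_restrict_mem hΩ.measurableSet] with z h1 h2 h3
  have h4 : Tendsto (fun k => g (ns k) z) atTop (𝓝 (G z)) := (hG z h3).comp hns.tendsto_atTop
  have h5 : (fun k => x (ns k) z) = fun k => g (ns k) z := by
    funext k; exact h2 _
  rw [h5] at h1
  exact tendsto_nhds_unique h1 h4

instance (Ω : TopologicalSpace.Opens (Fin n → ℂ)) : CompleteSpace (A2 Ω) :=
  (isClosed_A2 Ω).completeSpace_coe

end Run7.h80.HK
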