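import Pool.Agent.Run7.h80.HK.Tele

/-! Proof of the theorem on Hilbert-Schmidt Hankel operators. -/

set_option autoImplicit false

open Set Filter Topology Metric MeasureTheory
open scoped ComplexConjugate ENNReal ContDiff

namespace Run7.h80.HK

open UnitAddTorus

variable {n : ℕ}

section

variable {Ω : TopologicalSpace.Opens (Fin n → ℂ)} {f : (Fin n → ℂ) → ℂ}
  {T : A2 Ω →L[ℂ] Lp ℂ 2 (volume.restrict (Ω : Set (Fin n → ℂ)))}

lemma mFourier_single_coe (δ : Fin n → ℤ) (j : Fin n) (x : UnitAddCircle) :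
    mFourier δ (Pi.single j x) = fourier (δ j) x := by
  simp only [mFourier, ContinuousMap.coe_mk]
  rw [Finset.prod_eq_single j]
  · rw [Pi.single_eq_same]
  · intro i _ hij
    rw [Pi.single_eq_of_ne hij]
    simp
  · intro h; exact absurd (Finset.mem_univ j) h

lemma exists_mFourier_ne_one {δ : Fin n → ℤ} (hδ : δ ≠ 0) :
    ∃ t : UnitAddTorus (Fin n), mFourier δ t ≠ 1 := by
  obtain ⟨j, hj⟩ := Function.ne_iff.1 hδ
  refine ⟨Pi.single j ((1 / (2 * (δ j : ℝ)) : ℝ) : UnitAddCircle), ?_⟩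
  rw [mFourier_single_coe, fourier_coe_apply]
  have hj' : ((δ j : ℤ) : ℂ) ≠ 0 := by exact_mod_cast hj
  have e : 2 * (Real.pi : ℂ) * Complex.I * (δ j : ℂ) * ((1 / (2 * (δ j : ℝ)) : ℝ) : ℂ) /
      ((1 : ℝ) : ℂ) = Real.pi * Complex.I := by
    push_cast
    field_simp
  rw [e, Complex.exp_pi_mul_I]
  norm_num

/-- different monomials are orthogonal -/
lemma inner_mel (hR : IsReinhardt (Ω : Set (Fin n → ℂ))) {α α' : Fin n → ℤ} (h : InS Ω α)
    (h' : InS Ω α') (hne : α ≠ α') : inner ℂ (mel h).1 (mel h').1 = 0 := by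
  have e0 : inner ℂ (mel h).1 (mel h').1 =
      ∫ z in (Ω : Set (Fin n → ℂ)), conj (zmono α z) * zmono α' z := by
    change inner ℂ (h.mem.toLp _) (mel h').1 = _
    rw [inner_toLp]
    apply integral_congr_ae
    filter_upwards [mel_coe h'] with z hz
    rw [hz]
  rw [e0]
  set G : (Fin n → ℂ) → ℂ := fun z => conj (zmono α z) * zmono α' z with hG
  have hδ : α' - α ≠ 0 := fun h => hne (sub_eq_zero.1 h).symm
  obtain ⟨t, ht⟩ := exists_mFourier_ne_one hδ
  have hrot : ∀ z, G (rot t z) = mFourier (α' - α) t * G z := by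
    intro z
    simp only [hG]
    rw [zmono_rot, zmono_rot, map_mul, ← mFourier_neg, sub_eq_add_neg, mFourier_add]
    ring
  have hm := measurePreserving_rot_restrict Ω.isOpen hR t
  have hGm : AEStronglyMeasurable G (Measure.map (rot t) (volume.restrict (Ω : Set (Fin n → ℂ)))) := by
    apply Measurable.aestronglyMeasurable
    exact (Complex.continuous_conj.measurable.comp (measurable_zmono α)).mul (measurable_zmono α')
  have h1 := integral_map (μ := volume.restrict (Ω : Set (Fin n → ℂ))) (φ := rot t)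
    hm.measurable.aemeasurable hGm
  rw [hm.map_eq] at h1
  simp_rw [hrot] at h1
  rw [integral_const_mul] at h1
  have h2 : (mFourier (α' - α) t - 1) * ∫ z in (Ω : Set (Fin n → ℂ)), G z = 0 := by
    rw [sub_mul, one_mul, ← h1, sub_self]
  exact (mul_eq_zero.1 h2).resolve_left (sub_ne_zero.2 ht)

lemma norm_mel_sq {α : Fin n → ℤ} (h : InS Ω α) : ‖mel h‖ ^ 2 = JJ Ω α := by
  have : ‖mel h‖ = ‖(mel h).1‖ := rfl
  rw [this, norm_sq_eq_integral]
  apply integral_congr_ae
  filter_upwards [mel_coe h] with z hz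
  rw [hz]

open Classical in
/-- `‖T e_α‖ ^ 2` for the normalised monomial of degree `α` -/
noncomputable def WW (T : A2 Ω →L[ℂ] Lp ℂ 2 (volume.restrict (Ω : Set (Fin n → ℂ))))
    (α : Fin n → ℤ) : ℝ :=
  if h : InS Ω α then ‖T (mel h)‖ ^ 2 / JJ Ω α else 0

lemma WW_eq {α : Fin n → ℤ} (h : InS Ω α) : WW T α = ‖T (mel h)‖ ^ 2 / JJ Ω α := by
  unfold WW; rw [dif_pos h]

/-- the sum of the `‖T e_α‖ ^ 2` is bounded if `T` is Hilbert-Schmidt -/
lemma WW_sum (H : Setup Ω f T) {ι : Type*} (b : HilbertBasis ι ℂ (A2 Ω))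
    (hsum : Summable fun i => ‖T (b i)‖ ^ 2) (F : Finset (Fin n → ℤ))
    (hF : ∀ α ∈ F, InS Ω α) : ∑ α ∈ F, WW T α ≤ ∑' i, ‖T (b i)‖ ^ 2 := by
  set v : F → A2 Ω := fun α => (((Real.sqrt (JJ Ω α.1))⁻¹ : ℝ) : ℂ) • mel (hF α.1 α.2) with hv
  have hJ : ∀ α : F, 0 < JJ Ω α.1 := fun α => JJ_pos H.bdd H.rein H.ne (hF α.1 α.2)
  have horth : Orthonormal ℂ v := by
    constructor
    · intro α
      have h1 : ‖mel (hF α.1 α.2)‖ = Real.sqrt (JJ Ω α.1) := by
        rw [← norm_mel_sq (hF α.1 α.2), Real.sqrt_sq (norm_nonneg _)]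
      simp only [hv]
      rw [norm_smul, Complex.norm_real, norm_inv, Real.norm_of_nonneg (Real.sqrt_nonneg _), h1,
        inv_mul_cancel₀ (Real.sqrt_pos.2 (hJ α)).ne']
    · intro α α' hne
      have h0 : inner ℂ (mel (hF α.1 α.2)).1 (mel (hF α'.1 α'.2)).1 = 0 :=
        inner_mel H.rein _ _ fun h => hne (Subtype.ext h)
      change inner ℂ ((((Real.sqrt (JJ Ω α.1))⁻¹ : ℝ) : ℂ) • (mel (hF α.1 α.2)).1)
        ((((Real.sqrt (JJ Ω α'.1))⁻¹ : ℝ) : ℂ) • (mel (hF α'.1 α'.2)).1) = 0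
      rw [inner_smul_left, inner_smul_right, h0, mul_zero, mul_zero]
  have h1 := hs_bound T b horth
  have h2 : ∀ α : F, ‖T (v α)‖ ^ 2 = WW T α.1 := by
    intro α
    rw [WW_eq (hF α.1 α.2)]
    simp only [hv]
    rw [map_smul, norm_smul, mul_pow, Complex.norm_real, norm_inv, inv_pow, Real.norm_eq_abs,
      sq_abs, Real.sq_sqrt (hJ α).le]
    field_simp
  simp_rw [h2] at h1
  rw [tsum_fintype, ← ENNReal.ofReal_tsum_of_nonneg (fun i => by positivity) hsum,
    ← ENNReal.ofReal_sum_of_nonneg (fun α _ => by rw [← h2]; positivity)] at h1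
  have h3 : 0 ≤ ∑' i, ‖T (b i)‖ ^ 2 := tsum_nonneg fun i => by positivity
  have h4 := (ENNReal.ofReal_le_ofReal_iff h3).1 h1
  have h5 : ∑ α : F, WW T α.1 = ∑ α ∈ F, WW T α := Finset.sum_coe_sort F (WW T)
  rw [← h5]
  exact h4

lemma norm_zmono_add_nsmul {z : Fin n → ℂ} (hz : Nz z) (α β : Fin n → ℤ) (k : ℕ) :
    ‖zmono (α + k • β) z‖ ^ 2 = ‖zmono α z‖ ^ 2 * (‖zmono β z‖ ^ 2) ^ k := by
  induction k with
  | zero => simp
  | succ k ih =>
    rw [succ_nsmul, ← add_assoc, zmono_add hz, norm_mul, mul_pow, ih, pow_succ]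
    ring

/-- the ratios of the norms along a line are not bounded by a number smaller than the supremum of
`|z ^ β| ^ 2` -/
lemma growth (H : Setup Ω f T) {α β : Fin n → ℤ} {s t : ℝ} (hs : 0 < s) (hst : s < t)
    (hU : ∃ z ∈ Ω, Nz z ∧ t < ‖zmono β z‖ ^ 2) (hin : ∀ k : ℕ, InS Ω (α + k • β)) :
    ∃ k : ℕ, s * JJ Ω (α + k • β) < JJ Ω (α + (k + 1) • β) := by
  by_contra hcon
  push Not at hcon
  have h1 : ∀ k : ℕ, JJ Ω (α + k • β) ≤ s ^ k * JJ Ω α := by
    intro k
    induction k with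
    | zero => simp
    | succ k ih =>
      refine (hcon k).trans ?_
      rw [pow_succ]
      nlinarith
  set U : Set (Fin n → ℂ) := (Ω ∩ {z | Nz z}) ∩ {z | t < ‖zmono β z‖ ^ 2} with hUdef
  have hUo : IsOpen U := by
    have hc : ContinuousOn (fun z => ‖zmono β z‖ ^ 2) ((Ω : Set (Fin n → ℂ)) ∩ {z | Nz z}) :=
      fun z hz => ((differentiableAt_zmono hz.2 β).continuousAt.norm.pow 2).continuousWithinAt
    exact hc.isOpen_inter_preimage (Ω.isOpen.inter isOpen_Nz) isOpen_Ioi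
  have hUne : U.Nonempty := by
    obtain ⟨z, hz, hnz, hzt⟩ := hU
    exact ⟨z, ⟨hz, hnz⟩, hzt⟩
  have hUΩ : U ⊆ Ω := fun z hz => hz.1.1
  have hα : InS Ω α := by simpa using hin 0
  have hη : 0 < ∫ z in U, ‖zmono α z‖ ^ 2 := by
    rw [setIntegral_pos_iff_support_of_nonneg_ae (Eventually.of_forall fun z => by positivity)
      (hα.integrable.mono_measure (Measure.restrict_mono hUΩ le_rfl))]
    have : Function.support (fun z : Fin n → ℂ => ‖zmono α z‖ ^ 2) ∩ U = U := by
      apply inter_eq_right.2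
      intro z hz
      rw [Function.mem_support]
      exact pow_ne_zero _ (norm_ne_zero_iff.2 (zmono_ne_zero hz.1.2 α))
    rw [this]
    exact hUo.measure_pos volume hUne
  set η := ∫ z in U, ‖zmono α z‖ ^ 2 with hηdef
  have ht : 0 < t := hs.trans hst
  have h2 : ∀ k : ℕ, t ^ k * η ≤ JJ Ω (α + k • β) := by
    intro k
    rw [hηdef, ← integral_const_mul]
    refine le_trans ?_ (setIntegral_mono_set (hin k).integrable
      (Eventually.of_forall fun z => by positivity) hUΩ.eventuallyLE)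
    apply setIntegral_mono_on
    · exact (hα.integrable.mono_measure (Measure.restrict_mono hUΩ le_rfl)).const_mul _
    · exact (hin k).integrable.mono_measure (Measure.restrict_mono hUΩ le_rfl)
    · exact hUo.measurableSet
    · intro z hz
      rw [norm_zmono_add_nsmul hz.1.2, mul_comm]
      have h3 : t < ‖zmono β z‖ ^ 2 := hz.2
      gcongr
  have hJ0 : 0 < JJ Ω α := JJ_pos H.bdd H.rein H.ne hα
  have hlim : Tendsto (fun k : ℕ => (t / s) ^ k) atTop atTop :=
    tendsto_pow_atTop_atTop_of_one_lt ((one_lt_div hs).2 hst)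
  obtain ⟨k, hk⟩ := (hlim.eventually_gt_atTop (JJ Ω α / η)).exists
  have h4 := (h2 k).trans (h1 k)
  rw [div_pow, div_lt_div_iff₀ hη (by positivity)] at hk
  linarith

/-- the sum over one line -/
lemma line_sum (H : Setup Ω f T) {α β : Fin n → ℤ} {a : ℂ} (ha0 : a ≠ 0)
    (ha : ∀ z ∈ Ω, Nz z → mode f β z = a * zmono β z) (hα : InS Ω α) {t₀ t₁ t₂ t₃ : ℝ}
    (h0 : 0 < t₀) (h01 : t₀ < t₁) (h12 : t₁ < t₂) (h23 : t₂ < t₃)
    (hlow : ∃ z ∈ Ω, Nz z ∧ ‖zmono β z‖ ^ 2 < t₀) (hhigh : ∃ z ∈ Ω, Nz z ∧ t₃ < ‖zmono β z‖ ^ 2) :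
    ∃ F : Finset ℤ, (∀ k ∈ F, InS Ω (α + k • β)) ∧
      ‖a‖ ^ 2 * (t₂ - t₁) ≤ ∑ k ∈ F, WW T (α + k • β) := by
  have hJ : ∀ {γ}, InS Ω γ → 0 < JJ Ω γ := fun h => JJ_pos H.bdd H.rein H.ne h
  have hstep : ∀ k : ℤ, InS Ω (α + k • β) → InS Ω (α + (k + 1) • β) := by
    intro k hk
    have := H.step ha0 ha hk
    rwa [add_assoc, ← add_one_zsmul] at this
  apply tele (S := fun k : ℤ => InS Ω (α + k • β))
    (R := fun k : ℤ => JJ Ω (α + (k + 1) • β) / JJ Ω (α + k • β)) hstep (by simpa using hα)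
    (by positivity) h12 (by linarith)
  · -- interior
    intro k hk hk'
    have e1 : α + k • β - β = α + (k - 1) • β := by rw [sub_zsmul, one_zsmul]; abel
    have e2 : α + k • β + β = α + (k + 1) • β := by rw [add_zsmul, one_zsmul]; abel
    have h1 := H.lim1 ha0 ha hk (by rw [e1]; exact hk')
    rw [e1, e2] at h1
    rw [WW_eq hk, le_div_iff₀ (hJ hk), sub_add_cancel]
    refine le_trans (le_of_eq ?_) h1
    have := (hJ hk).ne'
    have := (hJ hk').ne'
    field_simp
  · intro k hk hk'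
    have e1 : α + k • β - β = α + (k - 1) • β := by rw [sub_zsmul, one_zsmul]; abel
    have e2 : α + k • β + β = α + (k + 1) • β := by rw [add_zsmul, one_zsmul]; abel
    have h1 := H.lim2 ha0 ha hk (by rw [e1]; exact hk')
    rw [e2] at h1
    rw [WW_eq hk, le_div_iff₀ (hJ hk)]
    refine le_trans (le_of_eq ?_) h1
    have := (hJ hk).ne'
    field_simp
  · have hin : ∀ k : ℕ, InS Ω (α + k • β) := by
      intro k
      induction k with
      | zero => simpa using hα
      | succ k ih =>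
        have := H.step ha0 ha ih
        rwa [add_assoc, ← succ_nsmul] at this
    obtain ⟨k, hk⟩ := growth H (s := t₂) (t := t₃) (by linarith) h23 hhigh hin
    refine ⟨k, by positivity, ?_⟩
    have e1 : ((k : ℤ) + 1) • β = (k + 1) • β := by
      rw [← natCast_zsmul β (k + 1)]; push_cast; rfl
    rw [e1, natCast_zsmul, le_div_iff₀ (hJ (hin k))]
    exact hk.le
  · intro hall
    have hin : ∀ k : ℕ, InS Ω (α + k • (-β)) := by
      intro k
      have := hall (-(k : ℤ))
      rwa [neg_zsmul, natCast_zsmul, ← smul_neg] at this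
    have hlow' : ∃ z ∈ Ω, Nz z ∧ 1 / t₀ < ‖zmono (-β) z‖ ^ 2 := by
      obtain ⟨z, hz, hnz, hzt⟩ := hlow
      refine ⟨z, hz, hnz, ?_⟩
      have h1 : ‖zmono (-β) z‖ ^ 2 * ‖zmono β z‖ ^ 2 = 1 := by
        rw [← mul_pow, ← norm_mul, zmono_neg_mul hnz]; simp
      have h2 : 0 < ‖zmono β z‖ ^ 2 := pow_pos (norm_pos_iff.2 (zmono_ne_zero hnz β)) 2
      have h3 : 0 < ‖zmono (-β) z‖ ^ 2 := pow_pos (norm_pos_iff.2 (zmono_ne_zero hnz (-β))) 2
      rw [div_lt_iff₀ h0]
      nlinarith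
    have ht1 : 0 < t₁ := h0.trans h01
    obtain ⟨k, hk⟩ := growth H (β := -β) (s := 1 / t₁) (t := 1 / t₀) (by positivity)
      (one_div_lt_one_div_of_lt h0 h01) hlow' hin
    refine ⟨-((k : ℤ) + 1), by omega, ?_⟩
    have e1 : (-((k : ℤ) + 1) + 1) • β = k • (-β) := by
      rw [show (-((k : ℤ) + 1) + 1) = -(k : ℤ) by ring, neg_zsmul, natCast_zsmul, smul_neg]
    have e2 : (-((k : ℤ) + 1)) • β = (k + 1) • (-β) := by
      rw [neg_zsmul, smul_neg, ← natCast_zsmul β (k + 1)]; push_cast; rfl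
    rw [e1, e2, div_le_iff₀ (hJ (hin (k + 1)))]
    rw [one_div, inv_mul_lt_iff₀ (by linarith)] at hk
    exact hk.le

lemma InS_nat (hb : Bornology.IsBounded (Ω : Set (Fin n → ℂ))) (m : Fin n → ℕ) :
    InS Ω (fun j => (m j : ℤ)) := by
  have e : zmono (fun j => (m j : ℤ)) = nmono m := by
    funext z
    simp [zmono, nmono]
  refine ⟨⟨nmono m, (differentiable_nmono m).differentiableOn, fun z _ _ => by rw [e]⟩, ?_⟩
  rw [e]
  have : IsFiniteMeasure (volume.restrict (Ω : Set (Fin n → ℂ))) := volume_lt_top hb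
  obtain ⟨R, hR⟩ := hb.exists_norm_le
  apply MemLp.of_bound (differentiable_nmono m).continuous.aestronglyMeasurable (∏ j, |R| ^ m j)
  filter_upwards [ae_restrict_mem Ω.isOpen.measurableSet] with z hz
  unfold nmono
  rw [norm_prod]
  apply Finset.prod_le_prod (fun j _ => norm_nonneg _)
  intro j _
  rw [norm_pow]
  apply pow_le_pow_left₀ (norm_nonneg _)
  exact ((norm_le_pi_norm z j).trans (hR z hz)).trans (le_abs_self R)

/-- the function `|z ^ β| ^ 2` is not constant -/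
lemma exists_two_values (hne : (Ω : Set (Fin n → ℂ)).Nonempty) {β : Fin n → ℤ} (hβ : β ≠ 0) :
    ∃ z ∈ Ω, ∃ w ∈ Ω, Nz z ∧ Nz w ∧ ‖zmono β z‖ ^ 2 < ‖zmono β w‖ ^ 2 := by
  obtain ⟨j, hj⟩ := Function.ne_iff.1 hβ
  have hpos : 0 < volume ((Ω : Set (Fin n → ℂ)) ∩ {z | Nz z}) := by
    have h3 := congrArg (fun ν : Measure (Fin n → ℂ) => ν univ)
      (restrict_inter_Nz (Ω : Set (Fin n → ℂ)))
    simp only [Measure.restrict_apply_univ] at h3
    rw [h3]
    exact Ω.isOpen.measure_pos volume hne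
  obtain ⟨z, hz, hnz⟩ := nonempty_of_measure_ne_zero hpos.ne'
  have hopen : IsOpen ((Ω : Set (Fin n → ℂ)) ∩ {z | Nz z}) := Ω.isOpen.inter isOpen_Nz
  set p : ℝ → (Fin n → ℂ) := fun s => Function.update z j ((s : ℂ) * z j) with hp
  have hpc : Continuous p := by
    simp only [hp]
    exact continuous_const.update j (by fun_prop)
  have hp1 : p 1 = z := by simp [hp]
  have hev : ∀ᶠ s : ℝ in 𝓝 1, p s ∈ (Ω : Set (Fin n → ℂ)) ∩ {z | Nz z} := by
    apply hpc.continuousAt.eventually_mem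
    rw [hp1]
    exact hopen.mem_nhds ⟨hz, hnz⟩
  obtain ⟨ε, hε, hball⟩ := Metric.eventually_nhds_iff.1 hev
  set s : ℝ := 1 + ε / 2 with hs
  have hs1 : 1 < s := by rw [hs]; linarith
  have hps : p s ∈ (Ω : Set (Fin n → ℂ)) ∩ {z | Nz z} := by
    apply hball
    rw [hs, Real.dist_eq, add_sub_cancel_left, abs_of_pos (by positivity)]
    linarith
  have hval : ‖zmono β (p s)‖ = s ^ (β j) * ‖zmono β z‖ := by
    have e1 : zmono β (p s) = (s : ℂ) ^ (β j) * zmono β z := by
      unfold zmono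
      rw [← Finset.mul_prod_erase Finset.univ _ (Finset.mem_univ j),
        ← Finset.mul_prod_erase Finset.univ (fun i => z i ^ β i) (Finset.mem_univ j)]
      have e2 : ∏ i ∈ Finset.univ.erase j, p s i ^ β i = ∏ i ∈ Finset.univ.erase j, z i ^ β i := by
        refine Finset.prod_congr rfl fun i hi => ?_
        simp only [hp]
        rw [Function.update_of_ne (Finset.ne_of_mem_erase hi)]
      rw [e2]
      simp only [hp, Function.update_self]
      rw [mul_zpow, mul_assoc]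
    rw [e1, norm_mul, norm_zpow, Complex.norm_real, Real.norm_of_nonneg (by linarith)]
  have hzp : 0 < ‖zmono β z‖ := norm_pos_iff.2 (zmono_ne_zero hnz β)
  rcases lt_or_gt_of_ne hj with h | h
  · refine ⟨p s, hps.1, z, hz, hps.2, hnz, ?_⟩
    have h1 : s ^ (β j) < 1 := zpow_lt_one_of_neg₀ hs1 h
    have h2 : 0 < s ^ (β j) := by positivity
    rw [hval]
    have h3 : s ^ β j * ‖zmono β z‖ < ‖zmono β z‖ := by nlinarith
    exact pow_lt_pow_left₀ h3 (by positivity) two_ne_zero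
  · refine ⟨z, hz, p s, hps.1, hnz, hps.2, ?_⟩
    have h1 : 1 < s ^ (β j) := one_lt_zpow₀ hs1 h
    rw [hval]
    have h3 : ‖zmono β z‖ < s ^ β j * ‖zmono β z‖ := by nlinarith
    exact pow_lt_pow_left₀ h3 (norm_nonneg _) two_ne_zero

/-- all components of nonzero degree of the symbol vanish -/
theorem mode_zero (hn : 2 ≤ n) (H : Setup Ω f T) {ι : Type*} (b : HilbertBasis ι ℂ (A2 Ω))
    (hsum : Summable fun i => ‖T (b i)‖ ^ 2) {β : Fin n → ℤ} (hβ : β ≠ 0) :
    ∀ z ∈ Ω, Nz z → mode f β z = 0 := by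
  obtain ⟨a, ha⟩ := mode_eq Ω.isOpen H.conn H.rein H.hol β
  by_cases ha0 : a = 0
  · intro z hz hnz
    rw [ha z hz hnz, ha0, zero_mul]
  exfalso
  obtain ⟨z, hz, w, hw, hnz, hnw, hlt⟩ := exists_two_values H.ne hβ
  set x := ‖zmono β z‖ ^ 2 with hx
  set y := ‖zmono β w‖ ^ 2 with hy
  have hx0 : 0 < x := pow_pos (norm_pos_iff.2 (zmono_ne_zero hnz β)) 2
  set d := (y - x) / 5 with hd
  have hd0 : 0 < d := by rw [hd]; linarith
  obtain ⟨j', hj'⟩ := Function.ne_iff.1 hβ
  have : Nontrivial (Fin n) := Fin.nontrivial_iff_two_le.2 hn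
  obtain ⟨j, hjj⟩ := exists_ne j'
  have hline : ∀ i : ℕ, ∃ F : Finset ℤ,
      (∀ k ∈ F, InS Ω ((Pi.single j (i : ℤ) : Fin n → ℤ) + k • β)) ∧
      ‖a‖ ^ 2 * d ≤ ∑ k ∈ F, WW T ((Pi.single j (i : ℤ) : Fin n → ℤ) + k • β) := by
    intro i
    have hα : InS Ω (Pi.single j (i : ℤ) : Fin n → ℤ) := by
      have := InS_nat (Ω := Ω) H.bdd (Pi.single j i)
      convert this using 1
      funext l
      by_cases hl : l = j
      · subst hl; simp
      · simp [Pi.single_eq_of_ne hl]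
    obtain ⟨F, hF1, hF2⟩ := line_sum H ha0 ha hα (t₀ := x + d) (t₁ := x + 2 * d)
      (t₂ := x + 3 * d) (t₃ := x + 4 * d) (by linarith) (by linarith) (by linarith) (by linarith)
      ⟨z, hz, hnz, by linarith⟩ ⟨w, hw, hnw, by linarith⟩
    refine ⟨F, hF1, ?_⟩
    have e : x + 3 * d - (x + 2 * d) = d := by ring
    rwa [e] at hF2
  choose F hF1 hF2 using hline
  set C := ∑' i, ‖T (b i)‖ ^ 2 with hC
  have hbound : ∀ N : ℕ, (N : ℝ) * (‖a‖ ^ 2 * d) ≤ C := by
    intro N
    set g : (Σ _ : ℕ, ℤ) → (Fin n → ℤ) := fun q => (Pi.single j (q.1 : ℤ) : Fin n → ℤ) + q.2 • β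
      with hg
    have hginj : Function.Injective g := by
      rintro ⟨i, k⟩ ⟨i', k'⟩ h
      simp only [hg] at h
      have h1 := congrFun h j'
      have h2 := congrFun h j
      simp only [Pi.add_apply, Pi.smul_apply, Pi.single_eq_of_ne hjj.symm, zero_add,
        Pi.single_eq_same, smul_eq_mul] at h1 h2
      have hk : k = k' := mul_right_cancel₀ hj' h1
      subst hk
      have hi : i = i' := by
        have : (i : ℤ) = i' := by linarith
        exact_mod_cast this
      rw [hi]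
    have h1 := WW_sum H b hsum (((Finset.range N).sigma fun i => F i).image g) (by
      intro α hα
      rw [Finset.mem_image] at hα
      obtain ⟨⟨i, k⟩, hik, rfl⟩ := hα
      rw [Finset.mem_sigma] at hik
      exact hF1 i k hik.2)
    rw [Finset.sum_image (fun p _ q _ h => hginj h), Finset.sum_sigma] at h1
    refine le_trans ?_ h1
    have h2 : ∑ i ∈ Finset.range N, (‖a‖ ^ 2 * d) ≤
        ∑ i ∈ Finset.range N, ∑ k ∈ F i, WW T (g ⟨i, k⟩) :=
      Finset.sum_le_sum fun i _ => hF2 i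
    rwa [Finset.sum_const, Finset.card_range, nsmul_eq_mul] at h2
  have hpos : 0 < ‖a‖ ^ 2 * d := by
    have : 0 < ‖a‖ := norm_pos_iff.2 ha0
    positivity
  obtain ⟨N, hN⟩ := exists_nat_gt (C / (‖a‖ ^ 2 * d))
  rw [div_lt_iff₀ hpos] at hN
  exact absurd (hbound N) (not_le.2 hN)

/-- the symbol is constant -/
theorem symbol_const (hn : 2 ≤ n) (H : Setup Ω f T) {ι : Type*} (b : HilbertBasis ι ℂ (A2 Ω))
    (hsum : Summable fun i => ‖T (b i)‖ ^ 2) : ∃ c : ℂ, ∀ z ∈ Ω, f z = c := by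
  have hrotNz : ∀ z ∈ Ω, Nz z → ∀ t, f (rot t z) = f z := by
    intro z hz hnz
    have hc : Continuous fun t : UnitAddTorus (Fin n) => f (rot t z) :=
      H.cont.comp_continuous (continuous_rot_left z) fun t => H.rein.rot_mem hz t
    set g : C(UnitAddTorus (Fin n), ℂ) := ⟨fun t => f (rot t z), hc⟩ with hg
    have hcoef : ∀ β : Fin n → ℤ, β ≠ 0 → mFourierCoeff g β = 0 := by
      intro β hβ
      exact mode_zero hn H b hsum hβ z hz hnz
    have hs : Summable (mFourierCoeff g) := by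
      apply summable_of_ne_finset_zero (s := {0})
      intro β hβ
      exact hcoef β (by simpa using hβ)
    have h1 : ∀ t, g t = mFourierCoeff g 0 := by
      intro t
      have h2 := hasSum_mFourier_series_apply_of_summable hs t
      have h3 := hasSum_single (f := fun i => mFourierCoeff g i • mFourier i t) 0 (fun β hβ => by
        rw [hcoef β hβ, zero_smul])
      have h4 := h2.unique h3
      rw [h4, mFourier_zero]
      simp
    intro t
    have h5 := h1 t
    have h6 := h1 0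
    simp only [hg, ContinuousMap.coe_mk, rot_zero] at h5 h6
    rw [h5, h6]
  -- extend to all of Ω by continuity
  have hdense : ∀ z ∈ Ω, z ∈ closure ((Ω : Set (Fin n → ℂ)) ∩ {z | Nz z}) := by
    intro z hz
    rw [_root_.mem_closure_iff]
    intro o ho hzo
    have h1 : 0 < volume ((o ∩ (Ω : Set (Fin n → ℂ))) ∩ {z | Nz z}) := by
      have h3 := congrArg (fun ν : Measure (Fin n → ℂ) => ν univ)
        (restrict_inter_Nz (o ∩ (Ω : Set (Fin n → ℂ))))
      simp only [Measure.restrict_apply_univ] at h3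
      rw [h3]
      exact (ho.inter Ω.isOpen).measure_pos volume ⟨z, hzo, hz⟩
    obtain ⟨w, hw⟩ := nonempty_of_measure_ne_zero h1.ne'
    exact ⟨w, hw.1.1, hw.1.2, hw.2⟩
  have hrot : ∀ z ∈ Ω, ∀ t, f (rot t z) = mFourier 0 t * f z := by
    intro z hz t
    rw [mFourier_zero]
    simp only [ContinuousMap.one_apply, one_mul]
    obtain ⟨x, hx, hxz⟩ := mem_closure_iff_seq_limit.1 (hdense z hz)
    have hfz : ContinuousAt f z := H.cont.continuousAt (Ω.isOpen.mem_nhds hz)
    have hfrz : ContinuousAt f (rot t z) :=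
      H.cont.continuousAt (Ω.isOpen.mem_nhds (H.rein.rot_mem hz t))
    have hcr : Continuous fun w => rot t w :=
      continuous_rot.comp (by fun_prop : Continuous fun w : Fin n → ℂ => (t, w))
    have h1 : Tendsto (fun k => f (rot t (x k))) atTop (𝓝 (f (rot t z))) :=
      hfrz.tendsto.comp ((hcr.tendsto z).comp hxz)
    have h2 : Tendsto (fun k => f (x k)) atTop (𝓝 (f z)) := hfz.tendsto.comp hxz
    have h3 : (fun k => f (rot t (x k))) = fun k => f (x k) := by
      funext k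
      exact hrotNz _ (hx k).1 (hx k).2 t
    rw [h3] at h1
    exact tendsto_nhds_unique h1 h2
  obtain ⟨c, hc⟩ := homogeneous Ω.isOpen H.conn H.hol hrot
  refine ⟨c, fun z hz => ?_⟩
  obtain ⟨x, hx, hxz⟩ := mem_closure_iff_seq_limit.1 (hdense z hz)
  have hfz : ContinuousAt f z := H.cont.continuousAt (Ω.isOpen.mem_nhds hz)
  have h2 : Tendsto (fun k => f (x k)) atTop (𝓝 (f z)) := hfz.tendsto.comp hxz
  have h3 : (fun k => f (x k)) = fun _ => c := by
    funext k
    rw [hc _ (hx k).1 (hx k).2, zmono_zero, mul_one]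
  rw [h3] at h2
  exact tendsto_nhds_unique h2 tendsto_const_nhds

/-- the Hankel operator of a constant symbol is zero -/
lemma hankel_const {c : ℂ} (hc : ∀ z ∈ Ω, f z = c) (g : A2 Ω)
    (hg : MemLp (fun z => conj (f z) * g.1 z) 2 (volume.restrict (Ω : Set (Fin n → ℂ)))) :
    hankel Ω f g hg = 0 := by
  have h1 : hg.toLp _ = (conj c) • g.1 := by
    apply Lp.ext
    filter_upwards [hg.coeFn_toLp, Lp.coeFn_smul (conj c) g.1,
      ae_restrict_mem Ω.isOpen.measurableSet] with z h1 h2 h3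
    rw [h1, h2, Pi.smul_apply, hc z h3, smul_eq_mul]
  unfold hankel
  rw [h1, sub_eq_zero]
  exact ((Submodule.starProjection_eq_self_iff).2 ((A2 Ω).smul_mem _ g.2)).symm

end

end Run7.h80.HK
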