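import Pool.Agent.Helper853.Bk.Bergman

/-! Basic facts on holomorphic functions of several variables. -/

set_option autoImplicit false

open Set Filter Topology Metric

namespace Run7.h80.HK

variable {E : Type*} [NormedAddCommGroup E] [NormedSpace ℂ E]

/-- a holomorphic function on a ball which vanishes near one point of the ball is zero -/
lemma zero_on_ball {h : E → ℂ} {z : E} {r : ℝ} (hh : DifferentiableOn ℂ h (ball z r)) {w : E}
    (hw : w ∈ ball z r) (h0 : ∀ᶠ x in 𝓝 w, h x = 0) : ∀ v ∈ ball z r, h v = 0 := by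
  intro v hv
  set L : ℂ → E := fun ζ => w + ζ • (v - w) with hL
  have hLc : Continuous L := by fun_prop
  have hLd : Differentiable ℂ L := by fun_prop
  set S : Set ℂ := L ⁻¹' ball z r with hS
  have hSo : IsOpen S := isOpen_ball.preimage hLc
  have hSc : Convex ℝ S := by
    intro x hx y hy a b ha hb hab
    have e : L (a • x + b • y) = a • L x + b • L y := by
      have h1 : a • w + b • w = w := by rw [← add_smul, hab, one_smul]
      calc w + (a • x + b • y) • (v - w)
          = (a • w + b • w) + (a • x • (v - w) + b • y • (v - w)) := by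
            rw [h1, add_smul, smul_assoc, smul_assoc]
        _ = a • (w + x • (v - w)) + b • (w + y • (v - w)) := by
            rw [smul_add, smul_add]; abel
    change L (a • x + b • y) ∈ ball z r
    rw [e]
    exact convex_ball z r hx hy ha hb hab
  have hd : DifferentiableOn ℂ (fun ζ => h (L ζ)) S :=
    hh.comp hLd.differentiableOn (fun ζ hζ => hζ)
  have ha : AnalyticOnNhd ℂ (fun ζ => h (L ζ)) S := hd.analyticOnNhd hSo
  have h0S : (0 : ℂ) ∈ S := by
    change w + (0 : ℂ) • (v - w) ∈ ball z r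
    simpa using hw
  have h1S : (1 : ℂ) ∈ S := by
    change w + (1 : ℂ) • (v - w) ∈ ball z r
    simpa using hv
  have hev : (fun ζ => h (L ζ)) =ᶠ[𝓝 0] 0 := by
    have h2 : Tendsto L (𝓝 0) (𝓝 w) := by
      have := hLc.tendsto 0
      simpa [hL] using this
    exact h2.eventually h0
  have := ha.eqOn_zero_of_preconnected_of_eventuallyEq_zero hSc.isPreconnected h0S hev h1S
  simpa [hL] using this

/-- The identity theorem. -/
theorem identity {Ω : Set E} (hΩ : IsOpen Ω) (hc : IsPreconnected Ω) {h : E → ℂ}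
    (hh : DifferentiableOn ℂ h Ω) {z₀ : E} (hz₀ : z₀ ∈ Ω) (h0 : ∀ᶠ x in 𝓝 z₀, h x = 0) :
    ∀ z ∈ Ω, h z = 0 := by
  set A : Set E := {z | ∀ᶠ x in 𝓝 z, h x = 0} with hA
  have hAo : IsOpen A := isOpen_setOfPred_eventually_nhds
  set B : Set E := Ω \ closure A with hB
  have hkey : ∀ z ∈ Ω, z ∈ closure A → z ∈ A := by
    intro z hz hzA
    obtain ⟨r, hr, hrΩ⟩ := Metric.isOpen_iff.1 hΩ z hz
    obtain ⟨w, hwA, hw⟩ := Metric.mem_closure_iff.1 hzA r hr
    have hwb : w ∈ ball z r := by rw [mem_ball, dist_comm]; exact hw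
    have := zero_on_ball (hh.mono hrΩ) hwb hwA
    filter_upwards [ball_mem_nhds z hr] with x hx using this x hx
  intro z hz
  by_contra hne
  have h1 : (Ω ∩ A).Nonempty := ⟨z₀, hz₀, h0⟩
  have hzn : z ∉ closure A := fun hcl => hne ((hkey z hz hcl).self_of_nhds)
  obtain ⟨x, hxΩ, hxA, hxB⟩ := hc A (closure A)ᶜ hAo isClosed_closure.isOpen_compl
    (fun x hx => by
      by_cases hxc : x ∈ closure A
      · exact Or.inl (hkey x hx hxc)
      · exact Or.inr hxc) h1 ⟨z, hz, hzn⟩
  exact hxB (subset_closure hxA)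

end Run7.h80.HK
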