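import Pool.Agent.Run7.h80.HK.Closed

/-! The main inequality for Hankel operators with conjugate holomorphic symbols. -/

set_option autoImplicit false

open Set Filter Topology Metric MeasureTheory
open scoped ComplexConjugate ENNReal ContDiff

namespace Run7.h80.HK

open UnitAddTorus

variable {n : ℕ}

/-- averaging over the torus -/
lemma integral_average {Ω : Set (Fin n → ℂ)} (hΩ : IsOpen Ω) (hR : IsReinhardt Ω)
    {G : (Fin n → ℂ) → ℂ} (hG : Integrable G (volume.restrict Ω)) :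
    ∫ z in Ω, G z = ∫ z in Ω, ∫ t, G (rot t z) ∂(τ n) := by
  set μ := (volume.restrict Ω : Measure (Fin n → ℂ)) with hμ
  have hmp : MeasurePreserving (fun p : UnitAddTorus (Fin n) × (Fin n → ℂ) =>
      (p.1, rot p.1 p.2)) ((τ n).prod μ) ((τ n).prod μ) := by
    apply MeasurePreserving.skew_product (MeasurePreserving.id (τ n))
    · exact continuous_rot.measurable
    · exact Eventually.of_forall fun t => (measurePreserving_rot_restrict hΩ hR t).map_eq
  have hG2 : Integrable (fun p : UnitAddTorus (Fin n) × (Fin n → ℂ) => G p.2) ((τ n).prod μ) :=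
    hG.comp_snd (τ n)
  have hint : Integrable (fun p : UnitAddTorus (Fin n) × (Fin n → ℂ) => G (rot p.1 p.2))
      ((τ n).prod μ) := hmp.integrable_comp_of_integrable hG2
  have h1 := integral_integral_swap (f := fun t z => G (rot t z)) hint
  rw [← h1]
  have h2 : ∀ t, ∫ z, G (rot t z) ∂μ = ∫ z, G z ∂μ := by
    intro t
    have hm : MeasurePreserving (rot t) μ μ := measurePreserving_rot_restrict hΩ hR t
    have hG3 : AEStronglyMeasurable G (Measure.map (rot t) μ) := by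
      rw [hm.map_eq]; exact hG.aestronglyMeasurable
    have := integral_map (μ := μ) (φ := rot t) hm.measurable.aemeasurable hG3
    rw [hm.map_eq] at this
    exact this.symm
  simp_rw [h2]
  simp

/-- only one component of `h` is seen by a homogeneous function -/
lemma integral_mode {Ω : Set (Fin n → ℂ)} (hΩ : IsOpen Ω) (hR : IsReinhardt Ω)
    {h ψ : (Fin n → ℂ) → ℂ} {δ : Fin n → ℤ}
    (hψ : ∀ t z, ψ (rot t z) = mFourier δ t * ψ z)
    (hG : Integrable (fun z => h z * ψ z) (volume.restrict Ω)) :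
    ∫ z in Ω, h z * ψ z = ∫ z in Ω, mode h (-δ) z * ψ z := by
  rw [integral_average hΩ hR hG]
  apply integral_congr_ae
  refine Eventually.of_forall fun z => ?_
  simp only
  unfold mode
  rw [← integral_mul_const]
  apply integral_congr_ae
  refine Eventually.of_forall fun t => ?_
  simp only
  rw [hψ, neg_neg]
  ring

/-- an exhaustion of `Ω` (up to the coordinate hyperplanes) by sets which are invariant under the
torus and on which `f` and the monomials are bounded -/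
def Kset (Ω : Set (Fin n → ℂ)) (f : (Fin n → ℂ) → ℂ) (m : ℕ) : Set (Fin n → ℂ) :=
  {z | z ∈ Ω ∧ (∀ t, ‖f (rot t z)‖ ≤ m) ∧ ∀ j, 1 / ((m : ℝ) + 1) ≤ ‖z j‖}

section

variable {Ω : Set (Fin n → ℂ)} {f : (Fin n → ℂ) → ℂ}

lemma Kset_nz {m : ℕ} {z : Fin n → ℂ} (hz : z ∈ Kset Ω f m) : Nz z := by
  intro j h
  have h1 := hz.2.2 j
  rw [h, norm_zero] at h1
  have : (0 : ℝ) < 1 / ((m : ℝ) + 1) := by positivity
  linarith

lemma Kset_rot (hR : IsReinhardt Ω) {m : ℕ} (t : UnitAddTorus (Fin n)) (z : Fin n → ℂ) :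
    rot t z ∈ Kset Ω f m ↔ z ∈ Kset Ω f m := by
  unfold Kset
  simp only [mem_ofPred_eq, norm_rot_apply, hR.rot_mem_iff t]
  refine and_congr Iff.rfl (and_congr ?_ Iff.rfl)
  constructor
  · intro h s
    have := h (s - t)
    rwa [← rot_add, sub_add_cancel] at this
  · intro h s
    have := h (s + t)
    rwa [rot_add] at this

lemma Kset_mono {m m' : ℕ} (h : m ≤ m') : Kset Ω f m ⊆ Kset Ω f m' := by
  intro z hz
  have h' : (m : ℝ) ≤ m' := by exact_mod_cast h
  refine ⟨hz.1, fun t => (hz.2.1 t).trans h', fun j => le_trans ?_ (hz.2.2 j)⟩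
  gcongr

lemma iUnion_Kset (hR : IsReinhardt Ω) (hf : ContinuousOn f Ω) :
    ⋃ m, Kset Ω f m = Ω ∩ {z | Nz z} := by
  ext z
  simp only [mem_iUnion, mem_inter_iff, mem_ofPred_eq]
  constructor
  · rintro ⟨m, hm⟩
    exact ⟨hm.1, Kset_nz hm⟩
  · rintro ⟨hz, hnz⟩
    have hc : Continuous fun t : UnitAddTorus (Fin n) => f (rot t z) :=
      hf.comp_continuous (continuous_rot_left z) fun t => hR.rot_mem hz t
    obtain ⟨C, hC⟩ := (isCompact_range hc).isBounded.exists_norm_le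
    have h2 : ∀ j, ∃ m : ℕ, 1 / ((m : ℝ) + 1) ≤ ‖z j‖ := fun j =>
      (exists_nat_one_div_lt (norm_pos_iff.2 (hnz j))).imp fun _ h => h.le
    choose M hM using h2
    obtain ⟨m0, hm0⟩ := exists_nat_ge C
    refine ⟨m0 + ∑ j, M j, hz, fun t => ?_, fun j => ?_⟩
    · have h3 : (m0 : ℝ) ≤ ((m0 + ∑ j, M j : ℕ) : ℝ) := by exact_mod_cast Nat.le_add_right _ _
      exact ((hC _ ⟨t, rfl⟩).trans hm0).trans h3
    · refine le_trans ?_ (hM j)
      have h4 : M j ≤ m0 + ∑ j, M j :=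
        (Finset.single_le_sum (fun i _ => Nat.zero_le (M i)) (Finset.mem_univ j)).trans
          (Nat.le_add_left _ _)
      have h5 : (M j : ℝ) ≤ ((m0 + ∑ j, M j : ℕ) : ℝ) := by exact_mod_cast h4
      gcongr

lemma measurableSet_Kset (hΩ : IsOpen Ω) (hR : IsReinhardt Ω) (hf : ContinuousOn f Ω) (m : ℕ) :
    MeasurableSet (Kset Ω f m) := by
  have h1 : IsClosed {x : Ω | (∀ t, ‖f (rot t x.1)‖ ≤ m) ∧ ∀ j, 1 / ((m : ℝ) + 1) ≤ ‖x.1 j‖} := by
    have e : {x : Ω | (∀ t, ‖f (rot t x.1)‖ ≤ m) ∧ ∀ j, 1 / ((m : ℝ) + 1) ≤ ‖x.1 j‖} =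
        (⋂ t, {x : Ω | ‖f (rot t x.1)‖ ≤ m}) ∩ ⋂ j, {x : Ω | 1 / ((m : ℝ) + 1) ≤ ‖x.1 j‖} := by
      ext x
      simp
    rw [e]
    apply IsClosed.inter
    · refine isClosed_iInter fun t => isClosed_le ?_ continuous_const
      apply Continuous.norm
      refine hf.comp_continuous ?_ fun x => hR.rot_mem x.2 t
      exact continuous_rot.comp (by fun_prop : Continuous fun x : Ω => (t, x.1))
    · refine isClosed_iInter fun j => isClosed_le continuous_const ?_
      exact ((continuous_apply j).comp continuous_subtype_val).norm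
  have h2 := hΩ.measurableSet.subtype_image h1.measurableSet
  convert h2 using 1
  ext z
  constructor
  · rintro ⟨h1, h2⟩
    exact ⟨⟨z, h1⟩, h2, rfl⟩
  · rintro ⟨⟨x, hx⟩, h2, rfl⟩
    exact ⟨hx, h2⟩

lemma measurable_zmono (γ : Fin n → ℤ) : Measurable (zmono γ) := by
  unfold zmono
  apply Finset.measurable_prod
  intro j _
  have h : Measurable fun z : ℂ => z ^ γ j := by
    rcases le_total 0 (γ j) with h | h
    · obtain ⟨k, hk⟩ := Int.eq_ofNat_of_zero_le h
      rw [hk]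
      simp only [zpow_natCast]
      fun_prop
    · obtain ⟨k, hk⟩ := Int.eq_ofNat_of_zero_le (neg_nonneg.2 h)
      have e : γ j = -(k : ℤ) := by omega
      rw [e]
      simp only [zpow_neg, zpow_natCast]
      fun_prop
  exact h.comp (measurable_pi_apply j)

lemma norm_zmono_le {z : Fin n → ℂ} (γ : Fin n → ℤ) {R r : ℝ} (hr : 0 < r) (hz : ∀ j, r ≤ ‖z j‖)
    (hz2 : ‖z‖ ≤ R) (hR1 : 1 ≤ R) (hr1 : r ≤ 1) :
    ‖zmono γ z‖ ≤ ∏ j, (R / r) ^ (γ j).natAbs := by
  unfold zmono
  rw [norm_prod]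
  apply Finset.prod_le_prod (fun j _ => norm_nonneg _)
  intro j _
  rw [norm_zpow]
  have hzR : ‖z j‖ ≤ R := (norm_le_pi_norm z j).trans hz2
  have hzp : 0 < ‖z j‖ := hr.trans_le (hz j)
  rcases le_total 0 (γ j) with h | h
  · obtain ⟨k, hk⟩ := Int.eq_ofNat_of_zero_le h
    rw [hk]
    simp only [zpow_natCast, Int.natAbs_natCast]
    apply pow_le_pow_left₀ hzp.le
    rw [le_div_iff₀ hr]
    nlinarith
  · obtain ⟨k, hk⟩ := Int.eq_ofNat_of_zero_le (neg_nonneg.2 h)
    have e : γ j = -(k : ℤ) := by omega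
    rw [e]
    simp only [zpow_neg, zpow_natCast, Int.natAbs_neg, Int.natAbs_natCast]
    rw [← inv_pow]
    apply pow_le_pow_left₀ (by positivity)
    rw [inv_eq_one_div, div_le_div_iff₀ hzp hr]
    nlinarith [hz j]

lemma zmono_bdd (hb : Bornology.IsBounded Ω) (γ : Fin n → ℤ) (m : ℕ) :
    ∃ C : ℝ, ∀ z ∈ Kset Ω f m, ‖zmono γ z‖ ≤ C := by
  obtain ⟨R, hR⟩ := hb.exists_norm_le
  refine ⟨∏ j, (max R 1 / (1 / ((m : ℝ) + 1))) ^ (γ j).natAbs, fun z hz => ?_⟩
  apply norm_zmono_le γ (by positivity) hz.2.2 ((hR z hz.1).trans (le_max_left _ _))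
    (le_max_right _ _)
  rw [div_le_one (by positivity)]
  have : (0 : ℝ) ≤ m := by positivity
  linarith

end

end Run7.h80.HK
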