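import Pool.Agent.Run7.h80.HK.Ineq

/-! The main inequality for Hankel operators with conjugate holomorphic symbols. -/

set_option autoImplicit false

open Set Filter Topology Metric MeasureTheory
open scoped ComplexConjugate ENNReal ContDiff

namespace Run7.h80.HK

open UnitAddTorus

variable {n : ℕ}

/-- The Hankel operator `H_φ g = (I - P)(φ g)` with the symbol `φ = \bar f`, for `g ∈ A²(Ω)` with
`\bar f g ∈ L²(Ω)`; here `P` is the orthogonal projection of `L²(Ω)` onto `A²(Ω)`. -/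
noncomputable def hankel (Ω : TopologicalSpace.Opens (Fin n → ℂ)) (f : (Fin n → ℂ) → ℂ)
    (g : A2 Ω)
    (hg : MemLp (fun z => conj (f z) * g.1 z) 2 (volume.restrict (Ω : Set (Fin n → ℂ)))) :
    Lp ℂ 2 (volume.restrict (Ω : Set (Fin n → ℂ))) :=
  hg.toLp _ - (A2 Ω).starProjection (hg.toLp _)

section

variable {Ω : TopologicalSpace.Opens (Fin n → ℂ)} {f : (Fin n → ℂ) → ℂ}

lemma inner_toLp {μ : Measure (Fin n → ℂ)} {φ : (Fin n → ℂ) → ℂ} (hφ : MemLp φ 2 μ)
    (u : Lp ℂ 2 μ) : inner ℂ (hφ.toLp φ) u = ∫ z, conj (φ z) * u z ∂μ := by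
  rw [L2.inner_def]
  apply integral_congr_ae
  filter_upwards [hφ.coeFn_toLp] with z hz
  rw [hz, RCLike.inner_apply, mul_comm]

lemma T_eq (T : A2 Ω →L[ℂ] Lp ℂ 2 (volume.restrict (Ω : Set (Fin n → ℂ))))
    (hD : Dense {g : A2 Ω | MemLp (fun z => conj (f z) * g.1 z) 2
      (volume.restrict (Ω : Set (Fin n → ℂ)))})
    (hT : ∀ g hg, T g = hankel Ω f g hg) {φ : (Fin n → ℂ) → ℂ}
    (hφ : MemLp φ 2 (volume.restrict (Ω : Set (Fin n → ℂ))))
    (hfφ : MemLp (fun z => f z * φ z) 2 (volume.restrict (Ω : Set (Fin n → ℂ))))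
    (horth : ∀ h ∈ A2 Ω, inner ℂ (hφ.toLp φ) h = 0) (g : A2 Ω) :
    inner ℂ (hφ.toLp φ) (T g) = inner ℂ (hfφ.toLp _) g.1 := by
  have hc1 : Continuous fun g : A2 Ω => inner ℂ (hφ.toLp φ) (T g) :=
    continuous_const.inner T.continuous
  have hc2 : Continuous fun g : A2 Ω => inner ℂ (hfφ.toLp _) g.1 :=
    continuous_const.inner continuous_subtype_val
  have := Continuous.ext_on hD hc1 hc2 (fun g hg => by
    have hg' : MemLp (fun z => conj (f z) * g.1 z) 2
      (volume.restrict (Ω : Set (Fin n → ℂ))) := hg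
    change inner ℂ (hφ.toLp φ) (T g) = inner ℂ (hfφ.toLp _) g.1
    rw [hT g hg', hankel, inner_sub_right, horth _ (Submodule.starProjection_apply_mem _ _),
      sub_zero, inner_toLp, inner_toLp]
    apply integral_congr_ae
    filter_upwards [hg'.coeFn_toLp] with z hz
    rw [hz, map_mul]
    ring)
  exact congrFun this g

/-- the monomial of degree `α` belongs to the Bergman space -/
structure InS (Ω : TopologicalSpace.Opens (Fin n → ℂ)) (α : Fin n → ℤ) : Prop where
  hol : ∃ h, DifferentiableOn ℂ h (Ω : Set (Fin n → ℂ)) ∧ ∀ z ∈ Ω, Nz z → h z = zmono α z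
  mem : MemLp (zmono α) 2 (volume.restrict (Ω : Set (Fin n → ℂ)))

lemma ae_Nz (Ω : Set (Fin n → ℂ)) : ∀ᵐ z ∂(volume.restrict Ω), Nz z := by
  apply ae_restrict_of_ae
  unfold Nz
  rw [ae_all_iff]
  intro j
  have h : (volume : Measure (Fin n → ℂ)) {z | z j = 0} = 0 := by
    rw [volume_pi]
    exact Measure.pi_hyperplane (fun _ : Fin n => (volume : Measure ℂ)) j 0
  rw [ae_iff]
  simpa using h

/-- the monomial as an element of the Bergman space -/
noncomputable def mel {α : Fin n → ℤ} (h : InS Ω α) : A2 Ω :=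
  ⟨h.mem.toLp _, by
    obtain ⟨g, hg, hg2⟩ := h.hol
    refine ⟨g, hg, ?_⟩
    filter_upwards [h.mem.coeFn_toLp, ae_Nz (Ω : Set (Fin n → ℂ)),
      ae_restrict_mem Ω.isOpen.measurableSet] with z h1 h2 h3
    rw [h1, hg2 z h3 h2]⟩

lemma mel_coe {α : Fin n → ℤ} (h : InS Ω α) :
    (mel h).1 =ᵐ[volume.restrict (Ω : Set (Fin n → ℂ))] zmono α := h.mem.coeFn_toLp

/-- the integral of `|z ^ γ| ^ 2` over the set `K_m` -/
noncomputable def II (Ω : TopologicalSpace.Opens (Fin n → ℂ)) (f : (Fin n → ℂ) → ℂ) (m : ℕ)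
    (γ : Fin n → ℤ) : ℝ :=
  ∫ z in Kset (Ω : Set (Fin n → ℂ)) f m, ‖zmono γ z‖ ^ 2

lemma volume_lt_top (hb : Bornology.IsBounded (Ω : Set (Fin n → ℂ))) :
    IsFiniteMeasure (volume.restrict (Ω : Set (Fin n → ℂ))) :=
  ⟨by rw [Measure.restrict_apply_univ]; exact hb.measure_lt_top⟩

lemma restrict_indicator {F : (Fin n → ℂ) → ℂ} (hR : IsReinhardt (Ω : Set (Fin n → ℂ)))
    (hf : ContinuousOn f Ω) (m : ℕ) :
    ∫ z in (Ω : Set (Fin n → ℂ)), (Kset (Ω : Set (Fin n → ℂ)) f m).indicator F z =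
      ∫ z in Kset (Ω : Set (Fin n → ℂ)) f m, F z := by
  rw [setIntegral_indicator (measurableSet_Kset Ω.isOpen hR hf m)]
  congr 2
  exact inter_eq_right.2 fun z hz => hz.1

lemma integrableOn_K (hb : Bornology.IsBounded (Ω : Set (Fin n → ℂ)))
    (hR : IsReinhardt (Ω : Set (Fin n → ℂ))) (hf : ContinuousOn f Ω) (m : ℕ) (γ : Fin n → ℤ) :
    IntegrableOn (fun z => ‖zmono γ z‖ ^ 2) (Kset (Ω : Set (Fin n → ℂ)) f m) := by
  obtain ⟨C, hC⟩ := zmono_bdd (f := f) hb γ m
  have hfin : volume (Kset (Ω : Set (Fin n → ℂ)) f m) ≠ ⊤ :=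
    ((measure_mono fun z hz => hz.1).trans_lt hb.measure_lt_top).ne
  apply Measure.integrableOn_of_bounded (M := C ^ 2) hfin
  · filter_upwards [ae_restrict_mem (measurableSet_Kset Ω.isOpen hR hf m)] with z hz
    rw [norm_pow, norm_norm]
    have := hC z hz
    gcongr
  · exact ((measurable_zmono γ).norm.pow_const 2).aestronglyMeasurable

lemma main_ineq (hc : IsPreconnected (Ω : Set (Fin n → ℂ)))
    (hb : Bornology.IsBounded (Ω : Set (Fin n → ℂ)))
    (hR : IsReinhardt (Ω : Set (Fin n → ℂ))) (hf : DifferentiableOn ℂ f Ω)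
    (T : A2 Ω →L[ℂ] Lp ℂ 2 (volume.restrict (Ω : Set (Fin n → ℂ))))
    (hD : Dense {g : A2 Ω | MemLp (fun z => conj (f z) * g.1 z) 2
      (volume.restrict (Ω : Set (Fin n → ℂ)))})
    (hT : ∀ g hg, T g = hankel Ω f g hg) {α β : Fin n → ℤ} {a : ℂ}
    (ha : ∀ z ∈ Ω, Nz z → mode f β z = a * zmono β z) (hα : InS Ω α) (m : ℕ) (lam : ℝ)
    (hlam : (lam = 0 ∧ ∀ h, DifferentiableOn ℂ h (Ω : Set (Fin n → ℂ)) → ∀ z ∈ Ω, Nz z →
      mode h (α - β) z = 0) ∨ II Ω f m α = lam * II Ω f m (α - β)) :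
    ‖a‖ ^ 2 * (II Ω f m (α + β) - lam * II Ω f m α) ≤ ‖T (mel hα)‖ ^ 2 := by
  set μ := volume.restrict (Ω : Set (Fin n → ℂ)) with hμ
  set K := Kset (Ω : Set (Fin n → ℂ)) f m with hK
  have hΩ : IsOpen (Ω : Set (Fin n → ℂ)) := Ω.isOpen
  have : IsFiniteMeasure μ := volume_lt_top hb
  have hKm : MeasurableSet K := measurableSet_Kset hΩ hR hf.continuousOn m
  have hKΩ : K ⊆ Ω := fun z hz => hz.1
  set γ := α - β with hγ
  have hαe : α = γ + β := by rw [hγ]; abel
  obtain ⟨Cβ, hCβ⟩ := zmono_bdd (f := f) hb β m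
  obtain ⟨Cγ, hCγ⟩ := zmono_bdd (f := f) hb γ m
  obtain ⟨Cα, hCα⟩ := zmono_bdd (f := f) hb α m
  -- the test function
  set F : (Fin n → ℂ) → ℂ := fun z => zmono γ z * ((‖zmono β z‖ ^ 2 - lam : ℝ) : ℂ) with hF
  set φ : (Fin n → ℂ) → ℂ := K.indicator F with hφdef
  have hFm : Measurable F :=
    (measurable_zmono γ).mul (Complex.measurable_ofReal.comp
      (((measurable_zmono β).norm.pow_const 2).sub_const lam))
  have hφm : Measurable φ := hFm.indicator hKm
  have hφK : ∀ z ∈ K, φ z = F z := fun z hz => indicator_of_mem hz F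
  have hφn : ∀ z ∉ K, φ z = 0 := fun z hz => indicator_of_notMem hz F
  have hφrot : ∀ t z, φ (rot t z) = mFourier γ t * φ z := by
    intro t z
    by_cases hz : z ∈ K
    · rw [hφK z hz, hφK _ ((Kset_rot hR t z).2 hz)]
      simp only [hF]
      rw [zmono_rot, zmono_rot, norm_mul, norm_mFourier, one_mul]
      ring
    · rw [hφn z hz, hφn _ (fun h => hz ((Kset_rot hR t z).1 h)), mul_zero]
  have hFb : ∀ z ∈ K, ‖F z‖ ≤ Cγ * (Cβ ^ 2 + |lam|) := by
    intro z hz
    simp only [hF]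
    rw [norm_mul, Complex.norm_real, Real.norm_eq_abs]
    have h1 := hCγ z hz
    have h2 := hCβ z hz
    have h3 : |‖zmono β z‖ ^ 2 - lam| ≤ Cβ ^ 2 + |lam| := by
      calc |‖zmono β z‖ ^ 2 - lam| ≤ |‖zmono β z‖ ^ 2| + |lam| := abs_sub _ _
        _ = ‖zmono β z‖ ^ 2 + |lam| := by rw [abs_of_nonneg (by positivity)]
        _ ≤ _ := by gcongr
    have h4 : 0 ≤ Cγ := (norm_nonneg _).trans h1
    gcongr
  have hCγ0 : ∀ z ∈ K, 0 ≤ Cγ * (Cβ ^ 2 + |lam|) := fun z hz => (norm_nonneg _).trans (hFb z hz)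
  have hφL : MemLp φ 2 μ := by
    apply MemLp.of_bound hφm.aestronglyMeasurable (|Cγ * (Cβ ^ 2 + |lam|)|)
    refine Eventually.of_forall fun z => ?_
    by_cases hz : z ∈ K
    · rw [hφK z hz]; exact (hFb z hz).trans (le_abs_self _)
    · rw [hφn z hz, norm_zero]; positivity
  have hfφL : MemLp (fun z => f z * φ z) 2 μ := by
    apply MemLp.of_bound ((hf.continuousOn.aestronglyMeasurable hΩ.measurableSet).mul
      hφm.aestronglyMeasurable) (m * |Cγ * (Cβ ^ 2 + |lam|)|)
    refine Eventually.of_forall fun z => ?_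
    change ‖f z * φ z‖ ≤ _
    by_cases hz : z ∈ K
    · rw [hφK z hz, norm_mul]
      have h1 : ‖f z‖ ≤ m := by
        have := hz.2.1 0
        rwa [rot_zero] at this
      have h2 := (hFb z hz).trans (le_abs_self _)
      gcongr
    · rw [hφn z hz, mul_zero, norm_zero]; positivity
  -- integrals over K
  have hIint : ∀ δ, IntegrableOn (fun z => ‖zmono δ z‖ ^ 2) K := fun δ =>
    integrableOn_K hb hR hf.continuousOn m δ
  have hαβ : ∀ z ∈ K, ‖zmono (α + β) z‖ ^ 2 = ‖zmono α z‖ ^ 2 * ‖zmono β z‖ ^ 2 := by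
    intro z hz
    rw [zmono_add (Kset_nz hz), norm_mul, mul_pow]
  have hγβ : ∀ z ∈ K, ‖zmono α z‖ ^ 2 = ‖zmono γ z‖ ^ 2 * ‖zmono β z‖ ^ 2 := by
    intro z hz
    rw [hαe, zmono_add (Kset_nz hz), norm_mul, mul_pow]
  -- pairing with z ^ γ
  have hpair1 : ∫ z in (Ω : Set (Fin n → ℂ)), zmono γ z * conj (φ z) =
      ((II Ω f m α - lam * II Ω f m γ : ℝ) : ℂ) := by
    have e1 : (fun z => zmono γ z * conj (φ z)) = K.indicator fun z => zmono γ z * conj (F z) := by
      funext z
      by_cases hz : z ∈ K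
      · rw [hφK z hz, indicator_of_mem hz]
      · rw [hφn z hz, indicator_of_notMem hz, map_zero, mul_zero]
    rw [e1, restrict_indicator hR hf.continuousOn m]
    unfold II
    rw [← integral_const_mul, ← integral_sub (hIint α) ((hIint γ).const_mul lam),
      ← integral_complex_ofReal]
    apply setIntegral_congr_fun hKm
    intro z hz
    simp only [hF]
    rw [hγβ z hz, map_mul, Complex.conj_ofReal]
    have h1 : zmono γ z * conj (zmono γ z) = ((‖zmono γ z‖ ^ 2 : ℝ) : ℂ) := by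
      rw [Complex.mul_conj']; push_cast; rfl
    rw [← mul_assoc, h1]
    push_cast
    ring
  have horth : ∀ h ∈ A2 Ω, inner ℂ (hφL.toLp φ) h = 0 := by
    rintro u ⟨h, hh, hu⟩
    rw [inner_toLp]
    have hInt : Integrable (fun z => h z * conj (φ z)) μ := by
      have h1 : MemLp h 2 μ := (memLp_congr_ae hu).1 (Lp.memLp u)
      have h2 : MemLp (fun z => conj (φ z)) 2 μ := hφL.star
      exact h1.integrable_mul h2
    have e1 : ∫ z, conj (φ z) * u z ∂μ = ∫ z in (Ω : Set (Fin n → ℂ)), h z * conj (φ z) := by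
      apply integral_congr_ae
      filter_upwards [hu] with z hz
      rw [hz, mul_comm]
    rw [e1]
    have hψ : ∀ t z, conj (φ (rot t z)) = mFourier (-γ) t * conj (φ z) := by
      intro t z
      rw [hφrot, map_mul, mFourier_neg]
    rw [integral_mode hΩ hR hψ hInt, neg_neg]
    rcases hlam with ⟨hl0, hl⟩ | hl
    · rw [← integral_zero (Fin n → ℂ) ℂ (μ := μ)]
      apply integral_congr_ae
      filter_upwards [ae_Nz (Ω : Set (Fin n → ℂ)), ae_restrict_mem hΩ.measurableSet] with z h1 h2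
      rw [hl h hh z h2 h1, zero_mul]
    · obtain ⟨c, hc2⟩ := mode_eq hΩ hc hR hh γ
      have e2 : ∫ z in (Ω : Set (Fin n → ℂ)), mode h γ z * conj (φ z) =
          ∫ z in (Ω : Set (Fin n → ℂ)), c * (zmono γ z * conj (φ z)) := by
        apply integral_congr_ae
        filter_upwards [ae_Nz (Ω : Set (Fin n → ℂ)), ae_restrict_mem hΩ.measurableSet] with z h1 h2
        rw [hc2 z h2 h1, mul_assoc]
      rw [e2, integral_const_mul, hpair1, hl, sub_self, Complex.ofReal_zero, mul_zero]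
  -- pairing with T
  have hkey := T_eq T hD hT hφL hfφL horth (mel hα)
  have hval : inner ℂ (hfφL.toLp _) (mel hα).1 =
      conj (a * ((II Ω f m (α + β) - lam * II Ω f m α : ℝ) : ℂ)) := by
    rw [inner_toLp]
    have e1 : ∫ z, conj (f z * φ z) * (mel hα).1 z ∂μ =
        ∫ z in (Ω : Set (Fin n → ℂ)), conj (f z * (φ z * conj (zmono α z))) := by
      apply integral_congr_ae
      filter_upwards [mel_coe hα] with z hz
      rw [hz]
      simp only [map_mul, Complex.conj_conj]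
      ring
    rw [e1, integral_conj]
    congr 1
    have hψ : ∀ t z, φ (rot t z) * conj (zmono α (rot t z)) =
        mFourier (-β) t * (φ z * conj (zmono α z)) := by
      intro t z
      rw [hφrot, zmono_rot, map_mul, ← mFourier_neg]
      have : mFourier (-β) t = mFourier γ t * mFourier (-α) t := by
        rw [← mFourier_add]
        congr 1
        rw [hαe]
        congr 1
        abel
      rw [this]
      ring
    have hInt : Integrable (fun z => f z * (φ z * conj (zmono α z))) μ := by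
      have h2 : MemLp (fun z => conj (zmono α z)) 2 μ := hα.mem.star
      have := hfφL.integrable_mul h2
      refine this.congr (Eventually.of_forall fun z => ?_)
      simp only [Pi.mul_apply]
      ring
    rw [integral_mode hΩ hR hψ hInt, neg_neg]
    have e2 : ∫ z in (Ω : Set (Fin n → ℂ)), mode f β z * (φ z * conj (zmono α z)) =
        ∫ z in (Ω : Set (Fin n → ℂ)), a * K.indicator
          (fun z => ((‖zmono (α + β) z‖ ^ 2 - lam * ‖zmono α z‖ ^ 2 : ℝ) : ℂ)) z := by
      apply integral_congr_ae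
      filter_upwards [ae_Nz (Ω : Set (Fin n → ℂ)), ae_restrict_mem hΩ.measurableSet] with z h1 h2
      rw [ha z h2 h1, mul_assoc]
      congr 1
      by_cases hz : z ∈ K
      · rw [hφK z hz, indicator_of_mem hz, hαβ z hz]
        simp only [hF]
        have h3 : zmono α z = zmono γ z * zmono β z := by
          conv_lhs => rw [hαe]
          exact zmono_add h1 _ _
        have h4 : zmono β z * (zmono γ z * ((‖zmono β z‖ ^ 2 - lam : ℝ) : ℂ) *
            conj (zmono α z)) = (zmono α z * conj (zmono α z)) *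
              ((‖zmono β z‖ ^ 2 - lam : ℝ) : ℂ) := by
          conv_rhs => rw [h3]
          conv_lhs => rw [h3]
          ring
        rw [h4]
        have h5 : zmono α z * conj (zmono α z) = ((‖zmono α z‖ ^ 2 : ℝ) : ℂ) := by
          rw [Complex.mul_conj']; push_cast; rfl
        rw [h5]
        push_cast
        ring
      · rw [hφn z hz, indicator_of_notMem hz, zero_mul, mul_zero]
    rw [e2, integral_const_mul, restrict_indicator hR hf.continuousOn m, integral_complex_ofReal]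
    congr 2
    unfold II
    rw [integral_sub (hIint _) ((hIint α).const_mul lam), integral_const_mul]
  -- the norm of φ
  have hnorm : ‖hφL.toLp φ‖ ^ 2 = II Ω f m (α + β) - lam * II Ω f m α := by
    rw [norm_sq_eq_integral]
    have e1 : ∫ z, ‖(hφL.toLp φ) z‖ ^ 2 ∂μ = ∫ z in (Ω : Set (Fin n → ℂ)),
        K.indicator (fun z => ‖zmono (α + β) z‖ ^ 2 - 2 * lam * ‖zmono α z‖ ^ 2 +
          lam ^ 2 * ‖zmono γ z‖ ^ 2) z := by
      apply integral_congr_ae
      filter_upwards [hφL.coeFn_toLp] with z hz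
      rw [hz]
      by_cases hzK : z ∈ K
      · rw [hφK z hzK, indicator_of_mem hzK, hαβ z hzK, hγβ z hzK]
        simp only [hF]
        rw [norm_mul, Complex.norm_real, mul_pow, Real.norm_eq_abs, sq_abs]
        ring
      · rw [hφn z hzK, indicator_of_notMem hzK, norm_zero]
        norm_num
    rw [e1, setIntegral_indicator hKm, inter_eq_right.2 hKΩ, integral_add, integral_sub,
      integral_const_mul, integral_const_mul]
    · change II Ω f m (α + β) - 2 * lam * II Ω f m α + lam ^ 2 * II Ω f m γ = _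
      rcases hlam with ⟨hl0, hl⟩ | hl
      · rw [hl0]; ring
      · linear_combination (-lam) * hl
    · exact hIint _
    · exact (hIint α).const_mul _
    · exact (hIint _).sub ((hIint α).const_mul _)
    · exact (hIint γ).const_mul _
  -- conclusion
  set X := II Ω f m (α + β) - lam * II Ω f m α with hX
  rw [hval] at hkey
  have hle : ‖a‖ * X ≤ ‖hφL.toLp φ‖ * ‖T (mel hα)‖ := by
    have h1 : ‖inner ℂ (hφL.toLp φ) (T (mel hα))‖ = ‖a‖ * X := by
      rw [hkey, RCLike.norm_conj, norm_mul, Complex.norm_real, Real.norm_of_nonneg]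
      rw [← hnorm]; positivity
    rw [← h1]
    exact norm_inner_le_norm _ _
  have hX0 : 0 ≤ X := by rw [← hnorm]; positivity
  by_cases hXz : X = 0
  · rw [hXz, mul_zero]; positivity
  · have hXpos : 0 < X := lt_of_le_of_ne hX0 (Ne.symm hXz)
    have h2 : (‖a‖ * X) ^ 2 ≤ X * ‖T (mel hα)‖ ^ 2 := by
      calc (‖a‖ * X) ^ 2 ≤ (‖hφL.toLp φ‖ * ‖T (mel hα)‖) ^ 2 := by gcongr
        _ = X * ‖T (mel hα)‖ ^ 2 := by rw [mul_pow, hnorm]
    have h3 : X * (‖a‖ ^ 2 * X) ≤ X * ‖T (mel hα)‖ ^ 2 := by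
      calc X * (‖a‖ ^ 2 * X) = (‖a‖ * X) ^ 2 := by ring
        _ ≤ _ := h2
    exact le_of_mul_le_mul_left h3 hXpos

end

end Run7.h80.HK
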