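import Pool.Agent.Run7.h80.HK.Torus

/-! Homogeneous components of holomorphic functions on Reinhardt domains. -/

set_option autoImplicit false

open Set Filter Topology Metric MeasureTheory
open scoped ComplexConjugate ENNReal ContDiff

namespace Run7.h80.HK

open UnitAddTorus

variable {n : ℕ}

/-- The component of `h` of degree `γ`. -/
noncomputable def mode (h : (Fin n → ℂ) → ℂ) (γ : Fin n → ℤ) (z : Fin n → ℂ) : ℂ :=
  ∫ t, mFourier (-γ) t * h (rot t z) ∂(τ n)

lemma mFourier_neg_mul_self (γ : Fin n → ℤ) (t : UnitAddTorus (Fin n)) :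
    mFourier (-γ) t * mFourier γ t = 1 := by
  rw [← mFourier_add, neg_add_cancel, mFourier_zero]
  rfl

lemma norm_mFourier (γ : Fin n → ℤ) (t : UnitAddTorus (Fin n)) : ‖mFourier γ t‖ = 1 := by
  simp only [mFourier, ContinuousMap.coe_mk, norm_prod, fourier_apply, Circle.norm_coe,
    Finset.prod_const_one]

lemma mFourier_add_apply (γ : Fin n → ℤ) (s t : UnitAddTorus (Fin n)) :
    mFourier γ (s + t) = mFourier γ s * mFourier γ t := by
  simp only [mFourier, ContinuousMap.coe_mk, Pi.add_apply, ← Finset.prod_mul_distrib]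
  refine Finset.prod_congr rfl fun j _ => ?_
  simp [fourier_apply, smul_add, AddCircle.toCircle_add]

lemma mode_rot (h : (Fin n → ℂ) → ℂ) (γ : Fin n → ℤ) (s : UnitAddTorus (Fin n))
    (z : Fin n → ℂ) : mode h γ (rot s z) = mFourier γ s * mode h γ z := by
  unfold mode
  have h1 : ∀ t : UnitAddTorus (Fin n), mFourier (-γ) t * h (rot t (rot s z)) =
      mFourier γ s * (mFourier (-γ) (t + s) * h (rot (t + s) z)) := by
    intro t
    rw [← rot_add, mFourier_add_apply]
    have := mFourier_neg_mul_self γ s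
    linear_combination (- mFourier (-γ) t * h (rot (t + s) z)) * this
  simp_rw [h1]
  rw [integral_const_mul]
  congr 1
  have : (τ n).IsAddRightInvariant := by unfold τ; infer_instance
  exact integral_add_right_eq_self (μ := τ n)
    (fun t => mFourier (-γ) t * h (rot t z)) s

lemma isCompact_orbit {K : Set (Fin n → ℂ)} (hK : IsCompact K) :
    IsCompact ((fun p : UnitAddTorus (Fin n) × (Fin n → ℂ) => rot p.1 p.2) '' (univ ×ˢ K)) :=
  (isCompact_univ.prod hK).image continuous_rot

lemma continuousOn_fderiv {Ω : Set (Fin n → ℂ)} (hΩ : IsOpen Ω) {h : (Fin n → ℂ) → ℂ}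
    (hh : DifferentiableOn ℂ h Ω) : ContinuousOn (fderiv ℂ h) Ω :=
  (Pool.Agent.Helper853.Bk.contDiffOn_of_differentiableOn hΩ hh).continuousOn_fderiv_of_isOpen
    hΩ (by simp)

theorem differentiableOn_mode {Ω : Set (Fin n → ℂ)} (hΩ : IsOpen Ω) (hR : IsReinhardt Ω)
    {h : (Fin n → ℂ) → ℂ} (hh : DifferentiableOn ℂ h Ω) (γ : Fin n → ℤ) :
    DifferentiableOn ℂ (mode h γ) Ω := by
  intro z₀ hz₀
  apply DifferentiableAt.differentiableWithinAt
  obtain ⟨r, hr, hrΩ⟩ := Metric.isOpen_iff.1 hΩ z₀ hz₀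
  have hcb : closedBall z₀ (r / 2) ⊆ Ω := (closedBall_subset_ball (by linarith)).trans hrΩ
  have hK := isCompact_orbit (isCompact_closedBall z₀ (r / 2))
  set K := (fun p : UnitAddTorus (Fin n) × (Fin n → ℂ) => rot p.1 p.2) ''
    (univ ×ˢ closedBall z₀ (r / 2)) with hKdef
  have hKΩ : K ⊆ Ω := by
    rintro _ ⟨⟨t, z⟩, ⟨_, hz⟩, rfl⟩
    exact hR.rot_mem (hcb hz) t
  obtain ⟨C, hC⟩ := hK.exists_bound_of_continuousOn ((continuousOn_fderiv hΩ hh).mono hKΩ)
  have hcont : ∀ z ∈ Ω, Continuous fun t : UnitAddTorus (Fin n) => h (rot t z) := fun z hz =>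
    hh.continuousOn.comp_continuous (continuous_rot_left z) fun t => hR.rot_mem hz t
  have key := hasFDerivAt_integral_of_dominated_of_fderiv_le (μ := τ n) (𝕜 := ℂ)
    (F := fun z t => mFourier (-γ) t * h (rot t z))
    (F' := fun z t => mFourier (-γ) t • (fderiv ℂ h (rot t z)).comp (rotL t))
    (x₀ := z₀) (bound := fun _ => C) (s := ball z₀ (r / 2)) (ball_mem_nhds _ (by positivity))
    ?_ ?_ ?_ ?_ ?_ ?_
  · exact key.differentiableAt
  · filter_upwards [ball_mem_nhds z₀ (show 0 < r / 2 by positivity)] with z hz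
    exact ((map_continuous (mFourier (-γ))).mul
      (hcont z (hcb (ball_subset_closedBall hz)))).aestronglyMeasurable
  · exact ((map_continuous (mFourier (-γ))).mul (hcont z₀ hz₀)).integrable_of_hasCompactSupport
      (HasCompactSupport.of_compactSpace _)
  · apply Continuous.aestronglyMeasurable
    apply Continuous.smul (map_continuous (mFourier (-γ)))
    rw [continuous_clm_apply]
    intro v
    have h1 : Continuous fun t : UnitAddTorus (Fin n) => fderiv ℂ h (rot t z₀) :=
      (continuousOn_fderiv hΩ hh).comp_continuous (continuous_rot_left z₀)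
        fun t => hR.rot_mem hz₀ t
    have h2 : Continuous fun t : UnitAddTorus (Fin n) => rot t v := continuous_rot_left v
    have h3 := h1.clm_apply h2
    simpa [rotL_apply] using h3
  · refine Eventually.of_forall fun t z hz => ?_
    rw [norm_smul, norm_mFourier, one_mul]
    refine (ContinuousLinearMap.opNorm_comp_le _ _).trans ?_
    have h1 : ‖fderiv ℂ h (rot t z)‖ ≤ C :=
      hC _ ⟨(t, z), ⟨mem_univ _, ball_subset_closedBall hz⟩, rfl⟩
    calc ‖fderiv ℂ h (rot t z)‖ * ‖rotL t‖ ≤ ‖fderiv ℂ h (rot t z)‖ * 1 := by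
          gcongr
          exact norm_rotL_le t
      _ ≤ C := by rw [mul_one]; exact h1
  · exact integrable_const C
  · refine Eventually.of_forall fun t z hz => ?_
    have hzΩ : rot t z ∈ Ω := hR.rot_mem (hcb (ball_subset_closedBall hz)) t
    have h1 : HasFDerivAt h (fderiv ℂ h (rot t z)) (rot t z) :=
      (hh.differentiableAt (hΩ.mem_nhds hzΩ)).hasFDerivAt
    have h2 : HasFDerivAt (fun z => rot t z) (rotL t) z := by
      have := (rotL t).hasFDerivAt (x := z)
      have e : (fun z => rot t z) = ⇑(rotL t) := by funext z; rw [rotL_apply]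
      rw [e]; exact this
    exact (h1.comp z h2).const_mul _

/-- all coordinates are nonzero -/
def Nz (z : Fin n → ℂ) : Prop := ∀ j, z j ≠ 0

lemma isOpen_Nz : IsOpen {z : Fin n → ℂ | Nz z} := by
  have : {z : Fin n → ℂ | Nz z} = ⋂ j, {z | z j ≠ 0} := by
    ext z; simp [Nz]
  rw [this]
  exact isOpen_iInter_of_finite fun j => isOpen_ne_fun (continuous_apply j) continuous_const

lemma Nz.rot {z : Fin n → ℂ} (hz : Nz z) (t : UnitAddTorus (Fin n)) : Nz (rot t z) := by
  intro j h
  apply hz j
  rw [← norm_eq_zero] at h ⊢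
  rwa [norm_rot_apply] at h

lemma zmono_ne_zero {z : Fin n → ℂ} (hz : Nz z) (γ : Fin n → ℤ) : zmono γ z ≠ 0 :=
  Finset.prod_ne_zero_iff.2 fun j _ => zpow_ne_zero _ (hz j)

lemma zmono_add {z : Fin n → ℂ} (hz : Nz z) (α β : Fin n → ℤ) :
    zmono (α + β) z = zmono α z * zmono β z := by
  simp only [zmono, Pi.add_apply, ← Finset.prod_mul_distrib]
  exact Finset.prod_congr rfl fun j _ => zpow_add₀ (hz j) _ _

lemma zmono_zero (z : Fin n → ℂ) : zmono 0 z = 1 := by simp [zmono]

lemma zmono_neg_mul {z : Fin n → ℂ} (hz : Nz z) (γ : Fin n → ℤ) :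
    zmono (-γ) z * zmono γ z = 1 := by
  rw [← zmono_add hz, neg_add_cancel, zmono_zero]

lemma differentiableAt_zmono {z : Fin n → ℂ} (hz : Nz z) (γ : Fin n → ℤ) :
    DifferentiableAt ℂ (zmono γ) z := by
  unfold zmono
  have h : ∀ j ∈ (Finset.univ : Finset (Fin n)), HasFDerivAt (fun z : Fin n → ℂ => z j ^ γ j)
      (fderiv ℂ (fun z : Fin n → ℂ => z j ^ γ j) z) z := by
    intro j _
    have h1 : DifferentiableAt ℂ (fun w : Fin n → ℂ => w j ^ γ j) z :=
      (differentiableAt_apply j z).zpow (Or.inl (hz j))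
    exact h1.hasFDerivAt
  exact (HasFDerivAt.finsetProd h).differentiableAt

/-- monomials with natural exponents -/
noncomputable def nmono (m : Fin n → ℕ) (z : Fin n → ℂ) : ℂ := ∏ j, z j ^ m j

lemma differentiable_nmono (m : Fin n → ℕ) : Differentiable ℂ (nmono m) := by
  unfold nmono
  fun_prop

lemma nmono_ne_zero {z : Fin n → ℂ} (hz : Nz z) (m : Fin n → ℕ) : nmono m z ≠ 0 :=
  Finset.prod_ne_zero_iff.2 fun j _ => pow_ne_zero _ (hz j)

lemma zmono_mul_nmono {z : Fin n → ℂ} (hz : Nz z) (γ : Fin n → ℤ) :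
    zmono γ z * nmono (fun j => (-γ j).toNat) z = nmono (fun j => (γ j).toNat) z := by
  simp only [zmono, nmono, ← Finset.prod_mul_distrib]
  refine Finset.prod_congr rfl fun j _ => ?_
  rcases le_total 0 (γ j) with h | h
  · obtain ⟨k, hk⟩ := Int.eq_ofNat_of_zero_le h
    rw [hk]
    simp
  · obtain ⟨k, hk⟩ := Int.eq_ofNat_of_zero_le (neg_nonneg.2 h)
    have : γ j = -(k : ℤ) := by omega
    rw [this]
    simp [zpow_neg, inv_mul_cancel₀ (pow_ne_zero k (hz j))]

/-- A holomorphic function which is homogeneous of degree `γ` under the torus is a multiple of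
the monomial `z ^ γ`. -/
theorem homogeneous {Ω : Set (Fin n → ℂ)} (hΩ : IsOpen Ω) (hc : IsPreconnected Ω)
    {h : (Fin n → ℂ) → ℂ} (hh : DifferentiableOn ℂ h Ω) {γ : Fin n → ℤ}
    (hrot : ∀ z ∈ Ω, ∀ t, h (rot t z) = mFourier γ t * h z) :
    ∃ c : ℂ, ∀ z ∈ Ω, Nz z → h z = c * zmono γ z := by
  by_cases hne : ∃ z₀ ∈ Ω, Nz z₀
  swap
  · exact ⟨0, fun z hz hz' => absurd ⟨z, hz, hz'⟩ hne⟩
  obtain ⟨z₀, hz₀, hnz₀⟩ := hne
  set q : (Fin n → ℂ) → ℂ := fun z => zmono (-γ) z * h z with hq
  have hopen : IsOpen (Ω ∩ {z | Nz z}) := hΩ.inter isOpen_Nz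
  obtain ⟨r, hr, hrΩ⟩ := Metric.isOpen_iff.1 hopen z₀ ⟨hz₀, hnz₀⟩
  have hqd : DifferentiableOn ℂ q (Ω ∩ {z | Nz z}) := by
    intro z hz
    exact ((differentiableAt_zmono hz.2 _).mul
      (hh.differentiableAt (hΩ.mem_nhds hz.1))).differentiableWithinAt
  have hqrot : ∀ z ∈ Ω, ∀ t, q (rot t z) = q z := by
    intro z hz t
    simp only [hq]
    rw [hrot z hz t, zmono_rot]
    linear_combination (zmono (-γ) z * h z) * mFourier_neg_mul_self γ t
  have hfd : ∀ z ∈ Ω ∩ {z | Nz z}, fderiv ℂ q z = 0 := by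
    intro z hz
    have hd : HasFDerivAt q (fderiv ℂ q z) z :=
      (hqd.differentiableAt (hopen.mem_nhds hz)).hasFDerivAt
    have hbasis : ∀ j, fderiv ℂ q z (Pi.single j 1) = 0 := by
      intro j
      set p : ℝ → (Fin n → ℂ) := fun s => rot (Pi.single j (s : UnitAddCircle)) z with hp
      have hp0 : p 0 = z := by
        simp only [hp]
        rw [show ((0 : ℝ) : UnitAddCircle) = 0 from rfl, Pi.single_zero, rot_zero]
      have hpd : HasDerivAt p (Pi.single j (2 * Real.pi * Complex.I * z j)) 0 := by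
        rw [hasDerivAt_pi]
        intro i
        by_cases hij : i = j
        · subst hij
          simp only [hp, rot, Pi.single_eq_same]
          have e : ∀ s : ℝ, (fourier 1 (s : UnitAddCircle) : ℂ) =
              Complex.exp (2 * Real.pi * Complex.I * s) := by
            intro s
            rw [fourier_coe_apply]
            congr 1
            push_cast
            ring
          simp_rw [e]
          have h1 : HasDerivAt (fun s : ℝ => 2 * (Real.pi : ℂ) * Complex.I * (s : ℂ))
              (2 * Real.pi * Complex.I) 0 := by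
            have := (Complex.ofRealCLM.hasDerivAt (x := (0 : ℝ))).const_mul
              (2 * (Real.pi : ℂ) * Complex.I)
            simpa using this
          have h2 := (h1.cexp).mul_const (z i)
          simpa using h2
        · simp only [hp, rot]
          rw [Pi.single_eq_of_ne hij]
          simp only [Pi.single_eq_of_ne hij]
          simpa using hasDerivAt_const (0 : ℝ) (z i)
      have hconst : (fun s => q (p s)) = fun _ => q z := by
        funext s
        exact hqrot z hz.1 _
      have hd' : HasFDerivAt q ((fderiv ℂ q z).restrictScalars ℝ) (p 0) := by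
        rw [hp0]
        exact hd.restrictScalars ℝ
      have hcomp : HasDerivAt (fun s => q (p s))
          ((fderiv ℂ q z).restrictScalars ℝ (Pi.single j (2 * Real.pi * Complex.I * z j))) 0 :=
        hd'.comp_hasDerivAt 0 hpd
      rw [hconst] at hcomp
      have h0 := hcomp.unique (hasDerivAt_const (0 : ℝ) (q z))
      have e2 : (Pi.single j (2 * Real.pi * Complex.I * z j) : Fin n → ℂ) =
          (2 * Real.pi * Complex.I * z j) • (Pi.single j (1 : ℂ) : Fin n → ℂ) := by
        rw [← Pi.single_smul, smul_eq_mul, mul_one]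
      rw [ContinuousLinearMap.coe_restrictScalars', e2, map_smul, smul_eq_mul] at h0
      rcases mul_eq_zero.1 h0 with h3 | h3
      · exfalso
        have : (2 * (Real.pi : ℂ) * Complex.I * z j) ≠ 0 := by
          have := hz.2 j
          have hpi : (Real.pi : ℂ) ≠ 0 := by exact_mod_cast Real.pi_ne_zero
          simp [this, hpi]
        exact this h3
      · exact h3
    ext v
    have hv : v = ∑ j, v j • (Pi.single j (1 : ℂ) : Fin n → ℂ) := by
      funext i
      simp [Finset.sum_apply, Pi.single_apply]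
    rw [hv, map_sum]
    simp [hbasis]
  have hball : ∀ z ∈ ball z₀ r, q z = q z₀ := by
    intro z hz
    exact isOpen_ball.is_const_of_fderiv_eq_zero (convex_ball z₀ r).isPreconnected
      (hqd.mono hrΩ) (fun w hw => hfd w (hrΩ hw)) hz (mem_ball_self hr)
  set c := q z₀ with hcdef
  refine ⟨c, ?_⟩
  set G : (Fin n → ℂ) → ℂ := fun z =>
    h z * nmono (fun j => (-γ j).toNat) z - c * nmono (fun j => (γ j).toNat) z with hG
  have hGd : DifferentiableOn ℂ G Ω :=
    (hh.mul (differentiable_nmono _).differentiableOn).sub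
      ((differentiable_nmono _).differentiableOn.const_mul c)
  have hG0 : ∀ᶠ z in 𝓝 z₀, G z = 0 := by
    filter_upwards [ball_mem_nhds z₀ hr] with z hz
    have h1 := hball z hz
    have hnz : Nz z := (hrΩ hz).2
    simp only [hq] at h1
    have h2 : h z = c * zmono γ z := by
      have := zmono_neg_mul hnz γ
      linear_combination (-h z) * this + zmono γ z * h1
    simp only [hG]
    rw [h2, mul_assoc, zmono_mul_nmono hnz, sub_self]
  intro z hz hnz
  have h3 := identity hΩ hc hGd hz₀ hG0 z hz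
  simp only [hG] at h3
  rw [← zmono_mul_nmono hnz γ] at h3
  have h4 := nmono_ne_zero hnz fun j => (-γ j).toNat
  have h5 : (h z - c * zmono γ z) * nmono (fun j => (-γ j).toNat) z = 0 := by
    linear_combination h3
  rcases mul_eq_zero.1 h5 with h6 | h6
  · linear_combination h6
  · exact absurd h6 h4

/-- the component of degree `γ` is a multiple of the monomial -/
theorem mode_eq {Ω : Set (Fin n → ℂ)} (hΩ : IsOpen Ω) (hc : IsPreconnected Ω)
    (hR : IsReinhardt Ω) {h : (Fin n → ℂ) → ℂ} (hh : DifferentiableOn ℂ h Ω) (γ : Fin n → ℤ) :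
    ∃ c : ℂ, ∀ z ∈ Ω, Nz z → mode h γ z = c * zmono γ z :=
  homogeneous hΩ hc (differentiableOn_mode hΩ hR hh γ) fun z _ t => mode_rot h γ t z

end Run7.h80.HK
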