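import Pool.Agent.Run7.h80.HK.Chain

/-! Telescoping sums and the proof of the theorem. -/

set_option autoImplicit false

open Set Filter Topology Metric MeasureTheory
open scoped ComplexConjugate ENNReal ContDiff

namespace Run7.h80.HK

open UnitAddTorus

lemma tele_aux (k₁ : ℤ) (N : ℕ) {S : ℤ → Prop} {R w : ℤ → ℝ} {c : ℝ}
    (hw1 : ∀ k, S k → S (k - 1) → c * (R k - R (k - 1)) ≤ w k)
    (hS : ∀ k, k₁ ≤ k → S k) :
    c * (R (k₁ + N) - R k₁) ≤ ∑ i ∈ Finset.range N, w (k₁ + 1 + i) := by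
  induction N with
  | zero => simp
  | succ N ih =>
    rw [Finset.sum_range_succ]
    have h1 := hw1 (k₁ + 1 + N) (hS _ (by omega)) (hS _ (by omega))
    have e1 : k₁ + 1 + (N : ℤ) - 1 = k₁ + N := by ring
    rw [e1] at h1
    have e2 : k₁ + ((N + 1 : ℕ) : ℤ) = k₁ + 1 + N := by push_cast; ring
    rw [e2]
    have : c * (R (k₁ + 1 + N) - R k₁) = c * (R (k₁ + N) - R k₁) +
        c * (R (k₁ + 1 + N) - R (k₁ + N)) := by ring
    rw [this]
    exact add_le_add ih h1

lemma tele {S : ℤ → Prop} (hup : ∀ k, S k → S (k + 1)) (h0 : S 0) {R w : ℤ → ℝ} {c t₁ t₂ : ℝ}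
    (hc : 0 ≤ c) (ht : t₁ < t₂) (ht1 : 0 ≤ t₁)
    (hw1 : ∀ k, S k → S (k - 1) → c * (R k - R (k - 1)) ≤ w k)
    (hw2 : ∀ k, S k → ¬ S (k - 1) → c * R k ≤ w k)
    (hupper : ∃ k, 0 ≤ k ∧ t₂ ≤ R k) (hlower : (∀ k, S k) → ∃ k, k ≤ 0 ∧ R k ≤ t₁) :
    ∃ F : Finset ℤ, (∀ k ∈ F, S k) ∧ c * (t₂ - t₁) ≤ ∑ k ∈ F, w k := by
  have hup' : ∀ k l, S k → k ≤ l → S l := by
    intro k l hk hkl
    obtain ⟨N, rfl⟩ := Int.le.dest hkl
    induction N with
    | zero => simpa using hk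
    | succ N ih =>
      have := hup _ (ih (by omega))
      have e : k + ((N + 1 : ℕ) : ℤ) = k + N + 1 := by push_cast; ring
      rw [e]; exact this
  obtain ⟨k₂, hk₂, hR₂⟩ := hupper
  by_cases hall : ∀ k, S k
  · obtain ⟨k₁, hk₁, hR₁⟩ := hlower hall
    obtain ⟨N, hN⟩ := Int.le.dest (hk₁.trans hk₂)
    refine ⟨(Finset.range N).image fun i : ℕ => k₁ + 1 + (i : ℤ), fun k _ => hall k, ?_⟩
    rw [Finset.sum_image (by intro a _ b _ h; simpa using h)]
    refine le_trans ?_ (tele_aux k₁ N hw1 fun k _ => hall k)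
    rw [hN]
    exact mul_le_mul_of_nonneg_left (by linarith) hc
  · push Not at hall
    obtain ⟨k, hk⟩ := hall
    have hex : ∃ N : ℕ, S (-(N : ℤ)) ∧ ¬ S (-(N : ℤ) - 1) := by
      by_contra hcon
      push Not at hcon
      have h1 : ∀ N : ℕ, S (-(N : ℤ)) := by
        intro N
        induction N with
        | zero => simpa using h0
        | succ N ih =>
          have := hcon N ih
          have e : -((N + 1 : ℕ) : ℤ) = -(N : ℤ) - 1 := by push_cast; ring
          rw [e]; exact this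
      apply hk
      rcases le_total 0 k with h | h
      · exact hup' 0 k h0 h
      · obtain ⟨N, hN⟩ := Int.eq_ofNat_of_zero_le (neg_nonneg.2 h)
        have e : k = -(N : ℤ) := by omega
        rw [e]; exact h1 N
    obtain ⟨M, hM1, hM2⟩ := hex
    set k₀ : ℤ := -(M : ℤ) with hk₀
    have hk₀2 : k₀ ≤ k₂ := by omega
    obtain ⟨N, hN⟩ := Int.le.dest hk₀2
    refine ⟨insert k₀ ((Finset.range N).image fun i : ℕ => k₀ + 1 + (i : ℤ)), ?_, ?_⟩
    · intro k hk
      rw [Finset.mem_insert, Finset.mem_image] at hk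
      rcases hk with rfl | ⟨i, _, rfl⟩
      · exact hM1
      · exact hup' _ _ hM1 (by omega)
    · rw [Finset.sum_insert, Finset.sum_image (by intro a _ b _ h; simpa using h)]
      · have h1 := hw2 k₀ hM1 hM2
        have h2 := tele_aux k₀ N hw1 fun k hk => hup' _ _ hM1 hk
        rw [hN] at h2
        have h3 : c * (t₂ - t₁) ≤ c * R k₂ := mul_le_mul_of_nonneg_left (by linarith) hc
        have h4 : c * R k₂ = c * R k₀ + c * (R k₂ - R k₀) := by ring
        linarith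
      · rw [Finset.mem_image]
        rintro ⟨i, _, hi⟩
        omega

section HS

variable {H K : Type*} [NormedAddCommGroup H] [InnerProductSpace ℂ H] [CompleteSpace H]
  [NormedAddCommGroup K] [InnerProductSpace ℂ K] [CompleteSpace K]

lemma parseval {ι : Type*} (b : HilbertBasis ι ℂ K) (x : K) :
    ∑' i, ENNReal.ofReal (‖inner ℂ (b i) x‖ ^ 2) = ENNReal.ofReal (‖x‖ ^ 2) := by
  have h1 := b.hasSum_inner_mul_inner x x
  have h2 : (fun i => inner ℂ x (b i) * inner ℂ (b i) x) =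
      fun i => ((‖inner ℂ (b i) x‖ ^ 2 : ℝ) : ℂ) := by
    funext i
    rw [← inner_conj_symm x (b i), Complex.conj_mul']
    push_cast
    rfl
  have h3 : inner ℂ x x = ((‖x‖ ^ 2 : ℝ) : ℂ) := by
    rw [inner_self_eq_norm_sq_to_K]; simp
  rw [h2, h3] at h1
  have h4 : HasSum (fun i => ‖inner ℂ (b i) x‖ ^ 2) (‖x‖ ^ 2) := by exact_mod_cast h1
  rw [← h4.tsum_eq, ENNReal.ofReal_tsum_of_nonneg (fun i => by positivity) h4.summable]

/-- The Hilbert-Schmidt norm does not depend on the basis. -/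
lemma hs_bound (T : H →L[ℂ] K) {ι κ : Type*} (b : HilbertBasis ι ℂ H) {v : κ → H}
    (hv : Orthonormal ℂ v) :
    ∑' j, ENNReal.ofReal (‖T (v j)‖ ^ 2) ≤ ∑' i, ENNReal.ofReal (‖T (b i)‖ ^ 2) := by
  obtain ⟨w, b', -⟩ := exists_hilbertBasis ℂ K
  have h1 : ∀ x : H, ENNReal.ofReal (‖T x‖ ^ 2) =
      ∑' l, ENNReal.ofReal (‖inner ℂ x (T.adjoint (b' l))‖ ^ 2) := by
    intro x
    rw [← parseval b' (T x)]
    congr 1
    funext l
    rw [norm_inner_symm, ContinuousLinearMap.adjoint_inner_right]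
  simp_rw [h1]
  rw [ENNReal.tsum_comm, ENNReal.tsum_comm (f := fun i l => ENNReal.ofReal
    (‖inner ℂ (b i) (T.adjoint (b' l))‖ ^ 2))]
  apply ENNReal.tsum_le_tsum
  intro l
  rw [parseval b]
  rw [← ENNReal.ofReal_tsum_of_nonneg (fun i => by positivity) (hv.inner_products_summable _)]
  exact ENNReal.ofReal_le_ofReal (hv.tsum_inner_products_le _)

end HS

end Run7.h80.HK
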