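import Pool.Agent.Run7.h80.HK.Holo

/-! The action of the torus on `ℂ^n`. -/

set_option autoImplicit false

open Set Filter Topology Metric MeasureTheory
open scoped ComplexConjugate ENNReal

namespace Run7.h80.HK

open UnitAddTorus

variable {n : ℕ}

/-- The Haar probability measure of the torus. -/
noncomputable def τ (n : ℕ) : Measure (UnitAddTorus (Fin n)) :=
  Measure.pi fun _ => AddCircle.haarAddCircle

instance : IsProbabilityMeasure (τ n) := by unfold τ; infer_instance

/-- The action of the torus on `ℂ^n`. -/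
noncomputable def rot (t : UnitAddTorus (Fin n)) (z : Fin n → ℂ) : Fin n → ℂ :=
  fun j => fourier 1 (t j) * z j

lemma norm_fourier_one (x : UnitAddCircle) : ‖(fourier 1 x : ℂ)‖ = 1 := by
  rw [fourier_apply]; exact Circle.norm_coe _

lemma rot_zero (z : Fin n → ℂ) : rot 0 z = z := by
  funext j
  simp [rot]

lemma rot_add (s t : UnitAddTorus (Fin n)) (z : Fin n → ℂ) : rot (s + t) z = rot s (rot t z) := by
  funext j
  simp only [rot, Pi.add_apply]
  have : (fourier 1 (s j + t j) : ℂ) = fourier 1 (s j) * fourier 1 (t j) := by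
    simp [fourier_apply, AddCircle.toCircle_add]
  rw [this, mul_assoc]

lemma norm_rot_apply (t : UnitAddTorus (Fin n)) (z : Fin n → ℂ) (j : Fin n) :
    ‖rot t z j‖ = ‖z j‖ := by
  simp only [rot, norm_mul, norm_fourier_one, one_mul]

lemma norm_rot (t : UnitAddTorus (Fin n)) (z : Fin n → ℂ) : ‖rot t z‖ = ‖z‖ := by
  simp only [Pi.norm_def]
  congr 1
  refine Finset.sup_congr rfl fun j _ => ?_
  have h := norm_rot_apply t z j
  exact NNReal.coe_injective h

lemma continuous_rot : Continuous fun p : UnitAddTorus (Fin n) × (Fin n → ℂ) => rot p.1 p.2 := by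
  unfold rot
  fun_prop

lemma continuous_rot_left (z : Fin n → ℂ) : Continuous fun t => rot t z :=
  continuous_rot.comp (by fun_prop : Continuous fun t : UnitAddTorus (Fin n) => (t, z))

/-- the rotation as a continuous linear map -/
noncomputable def rotL (t : UnitAddTorus (Fin n)) : (Fin n → ℂ) →L[ℂ] (Fin n → ℂ) :=
  ContinuousLinearMap.pi fun j => (fourier 1 (t j) : ℂ) • ContinuousLinearMap.proj j

lemma rotL_apply (t : UnitAddTorus (Fin n)) (z : Fin n → ℂ) : rotL t z = rot t z := by
  funext j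
  simp [rotL, rot]

lemma norm_rotL_le (t : UnitAddTorus (Fin n)) : ‖rotL t‖ ≤ 1 := by
  apply ContinuousLinearMap.opNorm_le_bound _ zero_le_one
  intro z
  rw [rotL_apply, norm_rot, one_mul]

lemma rot_sub (t : UnitAddTorus (Fin n)) (z w : Fin n → ℂ) : rot t z - rot t w = rot t (z - w) := by
  rw [← rotL_apply, ← rotL_apply, ← rotL_apply, map_sub]

lemma dist_rot (t : UnitAddTorus (Fin n)) (z w : Fin n → ℂ) : dist (rot t z) (rot t w) = dist z w := by
  rw [dist_eq_norm, dist_eq_norm, rot_sub, norm_rot]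

lemma measurePreserving_rot (t : UnitAddTorus (Fin n)) :
    MeasurePreserving (rot t : (Fin n → ℂ) → (Fin n → ℂ)) volume volume := by
  have h1 : ∀ j, MeasurePreserving (fun z : ℂ => fourier 1 (t j) * z) volume volume := by
    intro j
    have := (rotation (AddCircle.toCircle (t j))).measurePreserving
    have e : (fun z : ℂ => fourier 1 (t j) * z) = rotation (AddCircle.toCircle (t j)) := by
      funext z
      simp [fourier_apply, rotation_apply]
    rw [e]
    exact this
  exact volume_preserving_pi h1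

/-- The monomial `z ^ γ` with integral exponents. -/
noncomputable def zmono (γ : Fin n → ℤ) (z : Fin n → ℂ) : ℂ := ∏ j, z j ^ γ j

lemma zmono_rot (γ : Fin n → ℤ) (t : UnitAddTorus (Fin n)) (z : Fin n → ℂ) :
    zmono γ (rot t z) = mFourier γ t * zmono γ z := by
  simp only [zmono, rot, mFourier, ContinuousMap.coe_mk, mul_zpow, Finset.prod_mul_distrib]
  congr 1
  refine Finset.prod_congr rfl fun j _ => ?_
  simp [fourier_apply, AddCircle.toCircle_zsmul]

/-- `Ω` is a Reinhardt set. -/
def IsReinhardt (Ω : Set (Fin n → ℂ)) : Prop :=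
  ∀ z ∈ Ω, ∀ θ : Fin n → ℝ, (fun j => Complex.exp (θ j * Complex.I) * z j) ∈ Ω

lemma IsReinhardt.rot_mem {Ω : Set (Fin n → ℂ)} (h : IsReinhardt Ω) {z : Fin n → ℂ} (hz : z ∈ Ω)
    (t : UnitAddTorus (Fin n)) : rot t z ∈ Ω := by
  choose θ hθ using fun j => QuotientAddGroup.mk_surjective (t j)
  have := h z hz fun j => 2 * Real.pi * θ j
  convert this using 1
  funext j
  simp only [rot]
  rw [← hθ j]
  congr 1
  have e := fourier_coe_apply (T := (1 : ℝ)) (n := 1) (x := θ j)
  rw [show ((QuotientAddGroup.mk (θ j) : UnitAddCircle)) = ((θ j : ℝ) : UnitAddCircle) from rfl, e]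
  congr 1
  push_cast
  ring

lemma IsReinhardt.rot_mem_iff {Ω : Set (Fin n → ℂ)} (h : IsReinhardt Ω) {z : Fin n → ℂ}
    (t : UnitAddTorus (Fin n)) : rot t z ∈ Ω ↔ z ∈ Ω := by
  refine ⟨fun hz => ?_, fun hz => h.rot_mem hz t⟩
  have := h.rot_mem hz (-t)
  rwa [← rot_add, neg_add_cancel, rot_zero] at this

lemma measurePreserving_rot_restrict {Ω : Set (Fin n → ℂ)} (hΩ : IsOpen Ω) (h : IsReinhardt Ω)
    (t : UnitAddTorus (Fin n)) :
    MeasurePreserving (rot t) (volume.restrict Ω) (volume.restrict Ω) := by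
  have h1 := (measurePreserving_rot t).restrict_preimage hΩ.measurableSet
  have e : rot t ⁻¹' Ω = Ω := by
    ext z
    exact h.rot_mem_iff t
  rwa [e] at h1

end Run7.h80.HK
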